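import Pool.Agent.R124.SemiTransitive

/-!
# Colourings that give word-representants, and blow-ups by cliques
-/

set_option autoImplicit false
set_option linter.unusedSectionVars false

namespace Pool.Agent.R124.SemiTransitive

variable {V : Type} [DecidableEq V]

open Relation

/-- A proper colouring by `0,1,2,3` without bad four-vertex paths gives a word-representant. -/
theorem wordRepresentable_of_four [Fintype V] (G : SimpleGraph V) (h : V → ℕ)
    (hne : ∀ a b, G.Adj a b → h a ≠ h b) (h3 : ∀ a, h a ≤ 3)
    (hp : ∀ a b c d, G.Adj a b → G.Adj b c → G.Adj c d → G.Adj a d → h a = 0 → h b = 1 →
      h c = 2 → h d = 3 → G.Adj a c ∧ G.Adj b d) : WordRepresentable G := by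
  apply wordRepresentable_of_height G h hne
  have hlt : ∀ a b, TransGen (fun x y => G.Adj x y ∧ h x < h y) a b → h a < h b := by
    intro a b hab
    induction hab with
    | single h1 => exact h1.2
    | tail _ h1 ih => exact lt_trans ih h1.2
  have one : ∀ a b, TransGen (fun x y => G.Adj x y ∧ h x < h y) a b →
      G.Adj a b ∨ ∃ p, G.Adj a p ∧ h a < h p ∧
        TransGen (fun x y => G.Adj x y ∧ h x < h y) p b := by
    intro a b hab
    rcases TransGen.head'_iff.mp hab with ⟨c, hc, hcb⟩
    rcases reflTransGen_iff_eq_or_transGen.mp hcb with e | e
    · left; rw [e]; exact hc.1
    · right; exact ⟨c, hc.1, hc.2, e⟩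
  intro a m b h1 h2 hab
  have l1 := hlt _ _ h1
  have l2 := hlt _ _ h2
  have l3 := h3 b
  by_cases am : G.Adj a m
  · refine ⟨am, ?_⟩
    by_contra mb
    rcases one m b h2 with e | ⟨p, e1, e2, e3⟩
    · exact mb e
    · have l4 := hlt _ _ e3
      rcases one p b e3 with e | ⟨q, f1, f2, f3⟩
      · exact mb (hp a m p b am e1 e hab (by omega) (by omega) (by omega) (by omega)).2
      · have l5 := hlt _ _ f3
        omega
  · rcases one a m h1 with e | ⟨p, e1, e2, e3⟩
    · exact absurd e am
    · have l4 := hlt _ _ e3
      rcases one p m e3 with e | ⟨q, f1, f2, f3⟩
      · rcases one m b h2 with g | ⟨q, f1, f2, f3⟩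
        · exact ⟨(hp a p m b e1 e g hab (by omega) (by omega) (by omega) (by omega)).1, g⟩
        · have l5 := hlt _ _ f3
          omega
      · have l5 := hlt _ _ f3
        omega

/-- Three-colourable graphs are word-representable. -/
theorem wordRepresentable_of_three [Fintype V] (G : SimpleGraph V) (h : V → ℕ)
    (hne : ∀ a b, G.Adj a b → h a ≠ h b) (h3 : ∀ a, h a ≤ 2) : WordRepresentable G := by
  apply wordRepresentable_of_four G h hne (fun a => (h3 a).trans (by norm_num))
  intro a b c d _ _ _ _ _ _ _ hd
  have := h3 d
  omega

/-- Blow-up of the vertices of a word-representable graph into cliques. -/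
theorem wordRepresentable_of_blowup {W : Type} [DecidableEq W] [Fintype W] (G : SimpleGraph V)
    (H : SimpleGraph W) (f : W → V)
    (hf : ∀ a b, a ≠ b → (H.Adj a b ↔ f a = f b ∨ G.Adj (f a) (f b)))
    (hG : WordRepresentable G) : WordRepresentable H := by
  classical
  obtain ⟨w, hw1, hw2⟩ := hG
  let L : List W := (Finset.univ : Finset W).toList
  have hLn : L.Nodup := Finset.nodup_toList _
  have hLm : ∀ a, a ∈ L := fun a => by simp [L]
  let g : V → List W := fun v => L.filter fun u => f u = v
  refine ⟨w.flatMap g, ?_, ?_⟩
  · intro a
    rw [List.mem_flatMap]
    exact ⟨f a, hw1 _, by simp [g, hLm]⟩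
  · intro a b hab
    rw [hf a b hab]
    have hrest : restrictTo a b (w.flatMap g) = w.flatMap fun v => restrictTo a b (g v) := by
      unfold restrictTo
      rw [List.filter_flatMap]
    by_cases hfab : f a = f b
    · -- same fibre
      simp only [hfab, true_or, iff_true]
      -- the restriction of the fibre is a fixed two-letter word
      have hperm : (restrictTo a b (g (f a))).Perm [a, b] := by
        have hnd : (restrictTo a b (g (f a))).Nodup := (hLn.filter _).filter _
        rw [List.perm_ext_iff_of_nodup hnd (by simp [hab])]
        intro z
        simp only [restrictTo, g, List.mem_filter, hLm, decide_eq_true_eq, true_and,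
          List.mem_cons, List.not_mem_nil, or_false]
        constructor
        · exact fun h => h.2
        · rintro (rfl | rfl)
          · exact ⟨rfl, Or.inl rfl⟩
          · exact ⟨hfab.symm, Or.inr rfl⟩
      have hnil : ∀ v, v ≠ f a → restrictTo a b (g v) = [] := by
        intro v hv
        rw [List.eq_nil_iff_forall_not_mem]
        intro z hz
        simp only [restrictTo, g, List.mem_filter, hLm, decide_eq_true_eq, true_and] at hz
        rcases hz with ⟨h1, rfl | rfl⟩
        · exact hv h1.symm
        · exact hv (by rw [← h1, hfab])
      unfold Alternate
      rw [hrest]
      have key : ∀ p q : W, p ≠ q → restrictTo a b (g (f a)) = [p, q] → ∀ l : List V,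
          (l.flatMap fun v => restrictTo a b (g v)).IsChain (· ≠ ·) ∧
            ∀ z ∈ (l.flatMap fun v => restrictTo a b (g v)).head?, z = p := by
        intro p q hpq e l
        induction l with
        | nil => simp
        | cons v l ih =>
          rw [List.flatMap_cons]
          by_cases hv : v = f a
          · subst hv
            rw [e]
            constructor
            · rw [List.isChain_append]
              refine ⟨by simp [hpq], ih.1, ?_⟩
              intro s hs t ht
              simp only [List.getLast?_cons_cons, List.getLast?_singleton, Option.mem_def,
                Option.some.injEq] at hs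
              rw [ih.2 t ht, ← hs]
              exact hpq.symm
            · intro z hz
              simp at hz
              exact hz.symm
          · rw [hnil v hv, List.nil_append]
            exact ih
      rcases List.perm_pair.mp hperm with e | e
      · exact (key a b hab e w).1
      · exact (key b a hab.symm e w).1
    · -- different fibres
      have e1 : ∀ v, restrictTo a b (g v) =
          (restrictTo (f a) (f b) [v]).map fun v => if v = f a then a else b := by
        intro v
        have hnd : (restrictTo a b (g v)).Nodup := (hLn.filter _).filter _
        have hm : ∀ z, z ∈ restrictTo a b (g v) ↔ f z = v ∧ (z = a ∨ z = b) := by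
          intro z
          simp [restrictTo, g, hLm, and_comm]
        by_cases h1 : v = f a
        · subst h1
          have : restrictTo (f a) (f b) [f a] = [f a] := by simp [restrictTo]
          rw [this]
          simp only [List.map_cons, if_true, List.map_nil]
          have : (restrictTo a b (g (f a))).Perm [a] := by
            rw [List.perm_ext_iff_of_nodup hnd (by simp)]
            intro z
            rw [hm]
            constructor
            · rintro ⟨h1, rfl | rfl⟩
              · simp
              · exact absurd h1.symm hfab
            · intro hz
              simp at hz
              subst hz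
              exact ⟨rfl, Or.inl rfl⟩
          exact List.perm_singleton.mp this
        · by_cases h2 : v = f b
          · subst h2
            have : restrictTo (f a) (f b) [f b] = [f b] := by simp [restrictTo]
            rw [this]
            simp only [List.map_cons, h1, if_false, List.map_nil]
            have : (restrictTo a b (g (f b))).Perm [b] := by
              rw [List.perm_ext_iff_of_nodup hnd (by simp)]
              intro z
              rw [hm]
              constructor
              · rintro ⟨h5, rfl | rfl⟩
                · exact absurd h5 hfab
                · simp
              · intro hz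
                simp at hz
                subst hz
                exact ⟨rfl, Or.inr rfl⟩
            exact List.perm_singleton.mp this
          · have : restrictTo (f a) (f b) [v] = [] := by simp [restrictTo, h1, h2]
            rw [this, List.map_nil, List.eq_nil_iff_forall_not_mem]
            intro z hz
            rw [hm] at hz
            rcases hz with ⟨h3, rfl | rfl⟩
            · exact h1 h3.symm
            · exact h2 h3.symm
      have e2 : restrictTo a b (w.flatMap g) =
          (restrictTo (f a) (f b) w).map fun v => if v = f a then a else b := by
        rw [hrest]
        simp only [e1]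
        have : ∀ l : List V, (l.flatMap fun v => (restrictTo (f a) (f b) [v]).map
            fun v => if v = f a then a else b) =
            (restrictTo (f a) (f b) l).map fun v => if v = f a then a else b := by
          intro l
          induction l with
          | nil => simp [restrictTo]
          | cons v l ih =>
            rw [List.flatMap_cons, ih, ← List.map_append]
            congr 1
            simp only [restrictTo, ← List.filter_append, List.singleton_append]
        exact this w
      simp only [hfab, false_or]
      rw [← hw2 (f a) (f b) hfab]
      unfold Alternate
      rw [e2, List.isChain_map]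
      apply List.IsChain.iff_of_mem_imp
      intro s t hs ht
      simp only [restrictTo, List.mem_filter, decide_eq_true_eq] at hs ht
      have hfba : f b ≠ f a := fun e => hfab e.symm
      rcases hs.2 with rfl | rfl <;> rcases ht.2 with rfl | rfl <;>
        simp [hfab, hfba, hab, hab.symm]

end Pool.Agent.R124.SemiTransitive
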