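import Mathlib

/-!
# The arithmetic of the three-colourings
-/

set_option autoImplicit false

namespace Pool.Agent.R124.CircExist

/-- The condition on `s, m` under which `i ↦ ⌊3 {(n+s) i / 2n}⌋` is a proper colouring. -/
def Good (n x s m : ℕ) : Prop :=
  3 * s ≤ n ∧ (n + s) % 2 = 1 ∧ (x + m) % 2 = 1 ∧ 3 * (s * x) ≤ 3 * (m * n) + n ∧
    3 * (m * n) ≤ 3 * (s * x) + n

instance (n x s m : ℕ) : Decidable (Good n x s m) := by unfold Good; infer_instance

/-- In every residue class modulo `q` there is a number in a window of length `q`. -/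
theorem exists_class (q r : ℕ) (hq : 0 < q) (P : ℕ → Prop) (hP : ∃ s, s % q = r ∧ P s) :
    ∃ s, s % q = r ∧ P s ∧ (s < q ∨ (q ≤ s ∧ ¬ P (s - q))) := by
  classical
  obtain ⟨h1, h2⟩ := Nat.find_spec hP
  refine ⟨Nat.find hP, h1, h2, ?_⟩
  by_cases h3 : Nat.find hP < q
  · exact Or.inl h3
  · right
    push Not at h3
    refine ⟨h3, ?_⟩
    intro h4
    have h5 : (Nat.find hP - q) % q = r := by
      rw [← Nat.mod_eq_sub_mod h3]
      exact h1
    have := Nat.find_min' hP ⟨h5, h4⟩
    omega

theorem exists_large (q r A e : ℕ) (hq : 0 < q) (hr : r < q) (he : 0 < e) :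
    ∃ s, s % q = r ∧ A ≤ s * e ∧ (s < q ∨ (q ≤ s ∧ (s - q) * e < A)) := by
  obtain ⟨s, h1, h2, h3⟩ := exists_class q r hq (fun s => A ≤ s * e)
    ⟨q * A + r, by rw [Nat.mul_add_mod]; exact Nat.mod_eq_of_lt hr,
      le_trans (Nat.le_mul_of_pos_left A hq)
        (le_trans (Nat.le_add_right _ r) (Nat.le_mul_of_pos_right _ he))⟩
  refine ⟨s, h1, h2, ?_⟩
  rcases h3 with h3 | ⟨h3, h4⟩
  · exact Or.inl h3
  · exact Or.inr ⟨h3, by push Not at h4; exact h4⟩

theorem exists_good (n x : ℕ) (hn : 24 ≤ n) (hx1 : 2 < x) (hx2 : x + 1 < n) (hx3 : 2 * x ≠ n) :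
    ∃ s m, Good n x s m := by
  by_cases c0 : n % 2 = 1 ∧ x % 2 = 1
  · exact ⟨0, 0, by omega, by omega, by omega, by omega, by omega⟩
  by_cases c1 : 3 * x ≤ n
  · by_cases p : x % 2 = 1
    · exact ⟨1, 0, by omega, by omega, by omega, by omega, by omega⟩
    · -- s x in [2n/3, 4n/3]
      obtain ⟨s, h1, h2, h3⟩ := exists_large 2 ((n + 1) % 2) (2 * n) (3 * x) (by norm_num)
        (Nat.mod_lt _ (by norm_num)) (by omega)
      have hx4 : 4 ≤ x := by omega
      have h4 : s * (3 * x) ≤ 2 * n + 6 * x := by
        rcases h3 with h3 | ⟨h3, h4⟩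
        · nlinarith
        · obtain ⟨t, rfl⟩ := Nat.exists_eq_add_of_le h3
          have : 2 + t - 2 = t := by omega
          rw [this] at h4
          nlinarith
      have h5 : 3 * s ≤ n := by
        by_contra h5
        push Not at h5
        have h6 : (n + 1) * x ≤ s * (3 * x) := by nlinarith
        have h7 : (n + 1) * x ≤ 2 * n + 6 * x := le_trans h6 h4
        nlinarith
      refine ⟨s, 1, h5, by omega, by omega, ?_, ?_⟩
      · nlinarith
      · nlinarith
  by_cases c2 : 2 * n ≤ 3 * x
  · by_cases p : n % 2 = 0 ∧ x % 2 = 0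
    · exact ⟨1, 1, by omega, by omega, by omega, by omega, by omega⟩
    · -- n - x is odd
      obtain ⟨e, rfl⟩ := Nat.exists_eq_add_of_lt (show x < n by omega)
      obtain ⟨s, h1, h2, h3⟩ := exists_large 2 (x % 2) (2 * (x + e + 1)) (3 * (e + 1))
        (by norm_num) (Nat.mod_lt _ (by norm_num)) (by omega)
      have he : 3 ≤ e + 1 := by omega
      have h4 : s * (3 * (e + 1)) ≤ 2 * (x + e + 1) + 6 * (e + 1) := by
        rcases h3 with h3 | ⟨h3, h4⟩
        · nlinarith
        · obtain ⟨t, rfl⟩ := Nat.exists_eq_add_of_le h3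
          have : 2 + t - 2 = t := by omega
          rw [this] at h4
          nlinarith
      have h5 : 3 * s ≤ x + e + 1 := by
        by_contra h5
        push Not at h5
        have h6 : (x + e + 1 + 1) * (e + 1) ≤ s * (3 * (e + 1)) := by nlinarith
        have h7 := le_trans h6 h4
        nlinarith
      have hs : 1 ≤ s := by
        rcases Nat.eq_zero_or_pos s with h | h
        · subst h; omega
        · exact h
      obtain ⟨t, rfl⟩ := Nat.exists_eq_add_of_le hs
      refine ⟨1 + t, t, h5, by omega, by omega, ?_, ?_⟩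
      · nlinarith
      · nlinarith
  · -- the middle range
    by_cases p : n % 2 = 1
    · exact ⟨2, 1, by omega, by omega, by omega, by omega, by omega⟩
    · rcases lt_or_gt_of_ne hx3 with hd | hd
      · -- 2 x < n
        obtain ⟨d, hd'⟩ := Nat.exists_eq_add_of_lt hd
        -- n = 2 x + d + 1
        obtain ⟨s, h1, h2, h3⟩ := exists_large 4 (if x % 2 = 0 then 3 else 1) n (3 * (d + 1))
          (by norm_num) (by split_ifs <;> norm_num) (by omega)
        have h4 : s * (3 * (d + 1)) ≤ n + 12 * (d + 1) := by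
          rcases h3 with h3 | ⟨h3, h4⟩
          · nlinarith
          · obtain ⟨t, rfl⟩ := Nat.exists_eq_add_of_le h3
            have : 4 + t - 4 = t := by omega
            rw [this] at h4
            nlinarith
        have h5 : 3 * s ≤ n := by
          by_contra h5
          push Not at h5
          have h6 : (n + 1) * (d + 1) ≤ s * (3 * (d + 1)) := by nlinarith
          have h7 := le_trans h6 h4
          have h8 : 2 ≤ d + 1 := by omega
          nlinarith
        have h9 : s * (3 * (d + 1)) ≤ 5 * n := by omega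
        by_cases px : x % 2 = 0
        · rw [if_pos px] at h1
          obtain ⟨k, hk⟩ : ∃ k, s = 4 * k + 3 := ⟨s / 4, by omega⟩
          subst hk
          refine ⟨4 * k + 3, 2 * k + 1, h5, by omega, by omega, ?_, ?_⟩
          · nlinarith
          · nlinarith
        · rw [if_neg px] at h1
          obtain ⟨k, hk⟩ : ∃ k, s = 4 * k + 1 := ⟨s / 4, by omega⟩
          subst hk
          refine ⟨4 * k + 1, 2 * k, h5, by omega, by omega, ?_, ?_⟩
          · nlinarith
          · nlinarith
      · -- n < 2 x
        obtain ⟨d, hd'⟩ := Nat.exists_eq_add_of_lt hd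
        -- 2 x = n + d + 1
        obtain ⟨s, h1, h2, h3⟩ := exists_large 4 (if x % 2 = 0 then 1 else 3) n (3 * (d + 1))
          (by norm_num) (by split_ifs <;> norm_num) (by omega)
        have h4 : s * (3 * (d + 1)) ≤ n + 12 * (d + 1) := by
          rcases h3 with h3 | ⟨h3, h4⟩
          · nlinarith
          · obtain ⟨t, rfl⟩ := Nat.exists_eq_add_of_le h3
            have : 4 + t - 4 = t := by omega
            rw [this] at h4
            nlinarith
        have h5 : 3 * s ≤ n := by
          by_contra h5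
          push Not at h5
          have h6 : (n + 1) * (d + 1) ≤ s * (3 * (d + 1)) := by nlinarith
          have h7 := le_trans h6 h4
          have h8 : 2 ≤ d + 1 := by omega
          nlinarith
        have h9 : s * (3 * (d + 1)) ≤ 5 * n := by omega
        by_cases px : x % 2 = 0
        · rw [if_pos px] at h1
          obtain ⟨k, hk⟩ : ∃ k, s = 4 * k + 1 := ⟨s / 4, by omega⟩
          subst hk
          refine ⟨4 * k + 1, 2 * k + 1, h5, by omega, by omega, ?_, ?_⟩
          · nlinarith
          · nlinarith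
        · rw [if_neg px] at h1
          obtain ⟨k, hk⟩ : ∃ k, s = 4 * k + 3 := ⟨s / 4, by omega⟩
          subst hk
          refine ⟨4 * k + 3, 2 * k + 2, h5, by omega, by omega, ?_, ?_⟩
          · nlinarith
          · nlinarith

/-- The sporadic pairs. -/
def spor : List (ℕ × ℕ) := [(8,3),(8,5),(10,6),(11,8),(12,5),(14,5),(14,8),(14,11),(20,11)]

theorem exists_small_aux : ∀ n ∈ List.range 24, ∀ x ∈ List.range n,
    (decide (2 < x) && decide (x + 1 < n) && !decide (2 * x = n) && !spor.contains (n, x)) = true →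
    ∃ s ∈ List.range 8, ∃ m ∈ List.range 8, Good n x s m := by
  decide +kernel

end Pool.Agent.R124.CircExist
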