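import Pool.Agent.R124.CircNat
import Pool.Agent.R124.CircExist

/-!
# Word-representants of the circulant graphs `C_{2n}(x,1,n)`
-/

set_option autoImplicit false
set_option linter.unreachableTactic false
set_option linter.unusedTactic false

namespace Pool.Agent.R124.CircNat

open Pool.Agent.R124.SemiTransitive

/-- `n ≡ 1 (mod 3)`. -/
def H1 (n a : ℕ) : ℕ :=
  if a + 8 < 2 * n then a % 3
  else if a + 8 = 2 * n then 0 else if a + 7 = 2 * n then 1 else if a + 6 = 2 * n then 3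
  else if a + 5 = 2 * n then 0 else if a + 4 = 2 * n then 2 else if a + 3 = 2 * n then 3
  else if a + 2 = 2 * n then 1 else 2

theorem H1_cases (n a : ℕ) (ha : a < 2 * n) : (a + 8 < 2 * n ∧ H1 n a = a % 3) ∨
    (a + 8 = 2 * n ∧ H1 n a = 0) ∨ (a + 7 = 2 * n ∧ H1 n a = 1) ∨
    (a + 6 = 2 * n ∧ H1 n a = 3) ∨ (a + 5 = 2 * n ∧ H1 n a = 0) ∨
    (a + 4 = 2 * n ∧ H1 n a = 2) ∨ (a + 3 = 2 * n ∧ H1 n a = 3) ∨
    (a + 2 = 2 * n ∧ H1 n a = 1) ∨ (a + 1 = 2 * n ∧ H1 n a = 2) := by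
  unfold H1
  split_ifs <;> omega

set_option maxHeartbeats 4000000 in
theorem two_mod_one (n : ℕ) (hn : 4 ≤ n) (h : n % 3 = 1) : WordRepresentable (circ n 2) := by
  apply wr_of_nat n 2 (by norm_num) (by omega) (H1 n)
  · intro a _
    unfold H1
    split_ifs <;> omega
  · intro a ha b hb hab
    unfold NA at hab
    have e1 := H1_cases n a ha
    have e2 := H1_cases n b hb
    generalize H1 n a = u at *
    generalize H1 n b = v at *
    intro huv
    subst huv
    rcases hab with h|h|h|h|h|h|h|h|h|h <;> omega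
  · intro d hd h1
    have hd' : d + 6 = 2 * n ∨ d + 3 = 2 * n := by
      have e1 := H1_cases n d hd
      omega
    intro a ha h2 h3
    have e2 := H1_cases n a ha
    have ha' : a + 8 = 2 * n ∨ a + 5 = 2 * n ∨ (d + 3 = 2 * n ∧ n = a + 3 ∧ a + 8 < 2 * n) ∨
        (d + 6 = 2 * n ∧ n = a + 6 ∧ a + 8 < 2 * n) := by
      unfold NA at h3
      omega
    intro c hc h4 h5
    have e3 := H1_cases n c hc
    unfold NA at h5
    intro b hb h6 h7 h8
    have e4 := H1_cases n b hb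
    unfold NA at *
    rcases hd' with hd' | hd' <;> rcases ha' with ha' | ha' | ha' | ha' <;> rcases h5 with h|h|h|h|h|h|h|h|h|h <;> try omega

/-- `n ≡ 0 (mod 3)`. -/
def H0 (n a : ℕ) : ℕ :=
  if a + 3 < n then a % 3 else if a + 3 = n then 3 else if a + 5 < 2 * n then (a + 2) % 3
  else if a + 5 = 2 * n then 3 else if a + 1 < 2 * n then (a + 1) % 3 else 3

theorem H0_cases (n a : ℕ) (ha : a < 2 * n) :
    (a + 3 < n ∧ H0 n a = a % 3) ∨ (a + 3 = n ∧ H0 n a = 3) ∨
    (n < a + 3 ∧ a + 5 < 2 * n ∧ H0 n a = (a + 2) % 3) ∨ (a + 5 = 2 * n ∧ n ≤ a + 2 ∧ H0 n a = 3) ∨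
    (2 * n < a + 5 ∧ n < a + 3 ∧ a + 1 < 2 * n ∧ H0 n a = (a + 1) % 3) ∨ (a + 1 = 2 * n ∧ n < a + 3 ∧ H0 n a = 3) := by
  unfold H0
  by_cases h1 : a + 3 < n
  · left; rw [if_pos h1]; exact ⟨h1, rfl⟩
  rw [if_neg h1]
  by_cases h2 : a + 3 = n
  · right; left; rw [if_pos h2]; exact ⟨h2, rfl⟩
  rw [if_neg h2]
  by_cases h3 : a + 5 < 2 * n
  · right; right; left; rw [if_pos h3]; exact ⟨by omega, h3, rfl⟩
  rw [if_neg h3]
  by_cases h4 : a + 5 = 2 * n
  · right; right; right; left; rw [if_pos h4]; exact ⟨h4, by omega, rfl⟩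
  rw [if_neg h4]
  by_cases h5 : a + 1 < 2 * n
  · right; right; right; right; left; rw [if_pos h5]; exact ⟨by omega, by omega, h5, rfl⟩
  rw [if_neg h5]
  right; right; right; right; right; exact ⟨by omega, by omega, rfl⟩

set_option maxHeartbeats 4000000 in
theorem two_mod_zero (n : ℕ) (hn : 6 ≤ n) (h : n % 3 = 0) : WordRepresentable (circ n 2) := by
  apply wr_of_nat n 2 (by norm_num) (by omega) (H0 n)
  · intro a ha
    have e1 := H0_cases n a ha
    omega
  · intro a ha b hb hab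
    unfold NA at hab
    have e1 := H0_cases n a ha
    have e2 := H0_cases n b hb
    generalize H0 n a = u at *
    generalize H0 n b = v at *
    intro huv
    subst huv
    rcases hab with h|h|h|h|h|h|h|h|h|h <;> omega
  · intro d hd h1
    have hd' : d + 3 = n ∨ d + 5 = 2 * n ∨ d + 1 = 2 * n := by
      have e1 := H0_cases n d hd
      omega
    intro a ha h2 h3 c hc h4 h5 b hb h6 h7 h8
    have e2 : (a + 3 < n ∧ a % 3 = 0) ∨ (n < a + 3 ∧ a + 5 < 2 * n ∧ a % 3 = 1) ∨ a + 4 = 2 * n := by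
      have e1 := H0_cases n a ha
      omega
    have e3 : (c + 3 < n ∧ c % 3 = 2) ∨ (n < c + 3 ∧ c + 5 < 2 * n ∧ c % 3 = 0) ∨ c + 2 = 2 * n := by
      have e1 := H0_cases n c hc
      omega
    have e4 : (b + 3 < n ∧ b % 3 = 1) ∨ (n < b + 3 ∧ b + 5 < 2 * n ∧ b % 3 = 2) ∨ b + 3 = 2 * n := by
      have e1 := H0_cases n b hb
      omega
    clear h2 h4 h6 h1
    unfold NA at *
    rcases hd' with hd' | hd' | hd' <;> rcases e2 with e2 | e2 | e2 <;> rcases h5 with h|h|h|h|h|h|h|h|h|h <;> omega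

/-- `x = m`, `n = 2 m`, `m` odd. -/
def Ho (m a : ℕ) : ℕ :=
  if a < m then a % 2 else if a < 2 * m then 1 + (a - m) % 2
  else if a < 3 * m then 2 + (a - 2 * m) % 2 else if (a - 3 * m) % 2 = 0 then 3 else 0

theorem Ho_cases (m a : ℕ) (hm : m % 2 = 1) :
    (a < m ∧ a % 2 = 0 ∧ Ho m a = 0) ∨ (a < m ∧ a % 2 = 1 ∧ Ho m a = 1) ∨
    (m ≤ a ∧ a < 2 * m ∧ a % 2 = 1 ∧ Ho m a = 1) ∨ (m ≤ a ∧ a < 2 * m ∧ a % 2 = 0 ∧ Ho m a = 2) ∨
    (2 * m ≤ a ∧ a < 3 * m ∧ a % 2 = 0 ∧ Ho m a = 2) ∨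
    (2 * m ≤ a ∧ a < 3 * m ∧ a % 2 = 1 ∧ Ho m a = 3) ∨
    (3 * m ≤ a ∧ a % 2 = 1 ∧ Ho m a = 3) ∨ (3 * m ≤ a ∧ a % 2 = 0 ∧ Ho m a = 0) := by
  unfold Ho
  rcases Nat.mod_two_eq_zero_or_one a with p | p
  · by_cases h1 : a < m
    · rw [if_pos h1]; left; exact ⟨h1, p, p⟩
    rw [if_neg h1]
    by_cases h2 : a < 2 * m
    · rw [if_pos h2]; right; right; right; left; exact ⟨by omega, h2, p, by omega⟩
    rw [if_neg h2]
    by_cases h3 : a < 3 * m
    · rw [if_pos h3]; right; right; right; right; left; exact ⟨by omega, h3, p, by omega⟩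
    rw [if_neg h3, if_neg (by omega)]
    right; right; right; right; right; right; right; exact ⟨by omega, p, rfl⟩
  · by_cases h1 : a < m
    · rw [if_pos h1]; right; left; exact ⟨h1, p, p⟩
    rw [if_neg h1]
    by_cases h2 : a < 2 * m
    · rw [if_pos h2]; right; right; left; exact ⟨by omega, h2, p, by omega⟩
    rw [if_neg h2]
    by_cases h3 : a < 3 * m
    · rw [if_pos h3]; right; right; right; right; right; left; exact ⟨by omega, h3, p, by omega⟩
    rw [if_neg h3, if_pos (by omega)]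
    right; right; right; right; right; right; left; exact ⟨by omega, p, rfl⟩

set_option maxHeartbeats 4000000 in
theorem half_odd (m : ℕ) (hm : 2 ≤ m) (h : m % 2 = 1) : WordRepresentable (circ (2 * m) m) := by
  apply wr_of_nat (2 * m) m (by omega) (by omega) (Ho m)
  · intro a ha
    have e1 := Ho_cases m a h
    omega
  · intro a ha b hb hab
    unfold NA at hab
    have e1 := Ho_cases m a h
    have e2 := Ho_cases m b h
    generalize Ho m a = u at *
    generalize Ho m b = v at *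
    intro huv
    subst huv
    rcases hab with h|h|h|h|h|h|h|h|h|h <;> omega
  · intro d hd h1 a ha h2 h3 c hc h4 h5 b hb h6 h7 h8
    have e1 := Ho_cases m d h
    have e2 := Ho_cases m a h
    have e3 := Ho_cases m c h
    have e4 := Ho_cases m b h
    rw [h1] at e1
    rw [h2] at e2
    rw [h4] at e3
    rw [h6] at e4
    clear h1 h2 h4 h6
    norm_num at e1 e2 e3 e4
    unfold NA at *
    rcases e1 with e1 | e1 <;> rcases e2 with e2 | e2 <;> rcases e3 with e3 | e3 <;>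
      rcases e4 with e4 | e4 <;> omega

/-- `x = m`, `n = 2 m`, `m` even. -/
def He (m a : ℕ) : ℕ :=
  if a < m then a % 2 else if a < 2 * m then (if (a - m) % 2 = 0 then 3 else 0)
  else if a < 3 * m then 2 + (a - 2 * m) % 2 else 1 + (a - 3 * m) % 2

theorem He_cases (m a : ℕ) (hm : m % 2 = 0) :
    (a < m ∧ a % 2 = 0 ∧ He m a = 0) ∨ (a < m ∧ a % 2 = 1 ∧ He m a = 1) ∨
    (m ≤ a ∧ a < 2 * m ∧ a % 2 = 0 ∧ He m a = 3) ∨ (m ≤ a ∧ a < 2 * m ∧ a % 2 = 1 ∧ He m a = 0) ∨
    (2 * m ≤ a ∧ a < 3 * m ∧ a % 2 = 0 ∧ He m a = 2) ∨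
    (2 * m ≤ a ∧ a < 3 * m ∧ a % 2 = 1 ∧ He m a = 3) ∨
    (3 * m ≤ a ∧ a % 2 = 0 ∧ He m a = 1) ∨ (3 * m ≤ a ∧ a % 2 = 1 ∧ He m a = 2) := by
  unfold He
  rcases Nat.mod_two_eq_zero_or_one a with p | p
  · by_cases h1 : a < m
    · rw [if_pos h1]; left; exact ⟨h1, p, p⟩
    rw [if_neg h1]
    by_cases h2 : a < 2 * m
    · rw [if_pos h2, if_pos (by omega)]; right; right; left; exact ⟨by omega, h2, p, rfl⟩
    rw [if_neg h2]
    by_cases h3 : a < 3 * m
    · rw [if_pos h3]; right; right; right; right; left; exact ⟨by omega, h3, p, by omega⟩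
    rw [if_neg h3]
    right; right; right; right; right; right; left; exact ⟨by omega, p, by omega⟩
  · by_cases h1 : a < m
    · rw [if_pos h1]; right; left; exact ⟨h1, p, p⟩
    rw [if_neg h1]
    by_cases h2 : a < 2 * m
    · rw [if_pos h2, if_neg (by omega)]; right; right; right; left; exact ⟨by omega, h2, p, rfl⟩
    rw [if_neg h2]
    by_cases h3 : a < 3 * m
    · rw [if_pos h3]; right; right; right; right; right; left; exact ⟨by omega, h3, p, by omega⟩
    rw [if_neg h3]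
    right; right; right; right; right; right; right; exact ⟨by omega, p, by omega⟩

set_option maxHeartbeats 4000000 in
theorem half_even (m : ℕ) (hm : 2 ≤ m) (h : m % 2 = 0) : WordRepresentable (circ (2 * m) m) := by
  apply wr_of_nat (2 * m) m (by omega) (by omega) (He m)
  · intro a ha
    have e1 := He_cases m a h
    omega
  · intro a ha b hb hab
    unfold NA at hab
    have e1 := He_cases m a h
    have e2 := He_cases m b h
    generalize He m a = u at *
    generalize He m b = v at *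
    intro huv
    subst huv
    rcases hab with h|h|h|h|h|h|h|h|h|h <;> omega
  · intro d hd h1 a ha h2 h3 c hc h4 h5 b hb h6 h7 h8
    have e1 := He_cases m d h
    have e2 := He_cases m a h
    have e3 := He_cases m c h
    have e4 := He_cases m b h
    rw [h1] at e1
    rw [h2] at e2
    rw [h4] at e3
    rw [h6] at e4
    clear h1 h2 h4 h6
    norm_num at e1 e2 e3 e4
    unfold NA at *
    rcases e1 with e1 | e1 <;> rcases e2 with e2 | e2 <;> rcases e3 with e3 | e3 <;>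
      rcases e4 with e4 | e4 <;> omega

/-! ### Sporadic pairs -/

/-- A colouring given by a list. -/
def chk (n x : ℕ) (l : List ℕ) : Bool :=
  let H : ℕ → ℕ := fun i => l.getD i 0
  (List.range (2 * n)).all fun a => decide (H a ≤ 3) &&
    ((List.range (2 * n)).all fun b => !decide (NA n x a b) || !decide (H a = H b)) &&
    (!decide (H a = 3) || (List.range (2 * n)).all fun p => !(decide (H p = 0 ∧ NA n x p a)) ||
      (List.range (2 * n)).all fun c => !(decide (H c = 2 ∧ NA n x c a)) ||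
        (List.range (2 * n)).all fun b => !(decide (H b = 1 ∧ NA n x p b ∧ NA n x b c)) ||
          (decide (NA n x p c ∧ NA n x b a)))

theorem wr_of_chk (n x : ℕ) (hx : 1 < x) (hn : x < n) (l : List ℕ) (h : chk n x l = true) :
    WordRepresentable (circ n x) := by
  simp only [chk, List.all_eq_true, List.mem_range, Bool.and_eq_true, decide_eq_true_eq,
    Bool.or_eq_true, Bool.not_eq_true', decide_eq_false_iff_not] at h
  apply wr_of_nat n x hx hn (fun i => l.getD i 0)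
  · intro a ha
    exact (h a ha).1.1
  · intro a ha b hb hab
    rcases (h a ha).1.2 b hb with h1 | h1
    · exact absurd hab h1
    · exact h1
  · intro d hd h1 a ha h2 h3 c hc h4 h5 b hb h6 h7 h8
    have g1 := (h d hd).2.resolve_left (fun h' => h' h1) a ha
    have g2 := g1.resolve_left (fun h' => h' ⟨h2, h3⟩) c hc
    have g3 := g2.resolve_left (fun h' => h' ⟨h4, h5⟩) b hb
    exact g3.resolve_left (fun h' => h' ⟨h6, h7, h8⟩)

theorem sporadic (n x : ℕ) (h : (n, x) ∈ CircExist.spor) : WordRepresentable (circ n x) := by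
  simp only [CircExist.spor, List.mem_cons, Prod.mk.injEq, List.not_mem_nil, or_false] at h
  rcases h with ⟨rfl, rfl⟩ | ⟨rfl, rfl⟩ | ⟨rfl, rfl⟩ | ⟨rfl, rfl⟩ | ⟨rfl, rfl⟩ | ⟨rfl, rfl⟩ |
    ⟨rfl, rfl⟩ | ⟨rfl, rfl⟩ | ⟨rfl, rfl⟩
  · exact wr_of_chk 8 3 (by norm_num) (by norm_num)
      [0, 1, 0, 1, 2, 1, 2, 0, 2, 0, 1, 3, 1, 2, 0, 2] (by decide +kernel)
  · exact wr_of_chk 8 5 (by norm_num) (by norm_num)
      [0, 1, 2, 0, 1, 2, 0, 1, 2, 0, 1, 2, 0, 1, 2, 3] (by decide +kernel)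
  · exact wr_of_chk 10 6 (by norm_num) (by norm_num)
      [0, 1, 0, 1, 0, 1, 3, 0, 2, 0, 2, 0, 2, 3, 1, 2, 1, 2, 1, 2] (by decide +kernel)
  · exact wr_of_chk 11 8 (by norm_num) (by norm_num)
      [0, 1, 2, 0, 1, 2, 0, 1, 2, 0, 1, 2, 0, 1, 2, 0, 1, 2, 0, 1, 2, 3] (by decide +kernel)
  · exact wr_of_chk 12 5 (by norm_num) (by norm_num)
      [0, 1, 0, 1, 0, 1, 2, 1, 2, 1, 2, 0, 2, 0, 2, 3, 1, 3, 1, 3, 0, 2, 0, 2] (by decide +kernel)
  · exact wr_of_chk 14 5 (by norm_num) (by norm_num)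
      [0, 1, 0, 1, 0, 1, 2, 1, 2, 1, 2, 0, 2, 0, 2, 0, 1, 0, 1, 3, 1, 2, 1, 2, 0, 2, 0, 2]
      (by decide +kernel)
  · exact wr_of_chk 14 8 (by norm_num) (by norm_num)
      [0, 1, 2, 0, 1, 2, 0, 1, 2, 0, 1, 2, 0, 1, 2, 0, 1, 2, 0, 1, 2, 0, 1, 2, 0, 1, 2, 3]
      (by decide +kernel)
  · exact wr_of_chk 14 11 (by norm_num) (by norm_num)
      [0, 1, 0, 1, 2, 0, 1, 3, 1, 2, 0, 1, 2, 1, 2, 0, 1, 2, 0, 2, 0, 1, 2, 0, 2, 0, 1, 2]
      (by decide +kernel)
  · exact wr_of_chk 20 11 (by norm_num) (by norm_num)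
      [0, 1, 0, 1, 2, 0, 2, 0, 1, 0, 1, 2, 0, 2, 0, 1, 3, 1, 2, 0, 2, 0, 1, 2, 1, 2, 0, 2, 0, 1,
        2, 1, 2, 0, 1, 0, 1, 2, 1, 2] (by decide +kernel)

/-! ### The generic three-colouring -/

theorem floor_ne (N T q r : ℕ) (hN : 0 < N) (h1 : N ≤ 3 * r) (h2 : 3 * r ≤ 2 * N) :
    3 * (T % N) / N ≠ 3 * ((T + N * q + r) % N) / N := by
  have e : (T + N * q + r) % N = (T % N + r) % N := by
    rw [show T + N * q + r = T + r + N * q by ring, Nat.add_mul_mod_self_left, Nat.mod_add_mod]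
  rw [e]
  have hA := Nat.mod_lt T hN
  generalize T % N = A at *
  intro heq
  have c1 := Nat.div_mul_le_self (3 * A) N
  have c2 := Nat.lt_div_mul_add hN (a := 3 * A)
  have c3 := Nat.div_mul_le_self (3 * ((A + r) % N)) N
  have c4 := Nat.lt_div_mul_add hN (a := 3 * ((A + r) % N))
  rw [← heq] at c3 c4
  generalize 3 * A / N * N = Q at *
  by_cases h : A + r < N
  · rw [Nat.mod_eq_of_lt h] at c3 c4
    omega
  · have e2 : (A + r) % N = A + r - N := by
      rw [Nat.mod_eq_sub_mod (by omega), Nat.mod_eq_of_lt (by omega)]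
    rw [e2] at c3 c4
    omega

theorem generic (n x : ℕ) (hx : 1 < x) (hn : x < n) (s m : ℕ) (hg : CircExist.Good n x s m) :
    WordRepresentable (circ n x) := by
  obtain ⟨g1, g2, g3, g4, g5⟩ := hg
  let H : ℕ → ℕ := fun i => 3 * ((n + s) * i % (2 * n)) / (2 * n)
  have h2n : 0 < 2 * n := by omega
  have hper : ∀ a, H (a + 2 * n) = H a := by
    intro a
    show 3 * ((n + s) * (a + 2 * n) % (2 * n)) / (2 * n) = _
    rw [mul_add, Nat.add_mul_mod_self_right]
  have step : ∀ d, (∃ q r, (n + s) * d = 2 * n * q + r ∧ 2 * n ≤ 3 * r ∧ 3 * r ≤ 2 * (2 * n)) →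
      ∀ a, H a ≠ H (a + d) := by
    rintro d ⟨q, r, e, r1, r2⟩ a
    show 3 * ((n + s) * a % (2 * n)) / (2 * n) ≠ 3 * ((n + s) * (a + d) % (2 * n)) / (2 * n)
    rw [mul_add, e, ← add_assoc]
    exact floor_ne (2 * n) _ q r h2n r1 r2
  have s1 : ∀ a, H a ≠ H (a + 1) := step 1 ⟨0, n + s, by ring, by omega, by omega⟩
  have sn : ∀ a, H a ≠ H (a + n) := by
    apply step n
    refine ⟨(n + s) / 2, n, ?_, by omega, by omega⟩
    have : n + s = 2 * ((n + s) / 2) + 1 := by omega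
    calc (n + s) * n = (2 * ((n + s) / 2) + 1) * n := by rw [← this]
      _ = _ := by ring
  have sx : ∀ a, H a ≠ H (a + x) := by
    apply step x
    -- (n + s) x = n (x + m) + (s x - m n)
    obtain ⟨k, hk⟩ : ∃ k, x + m = 2 * k + 1 := ⟨(x + m) / 2, by omega⟩
    refine ⟨k, n + s * x - m * n, ?_, by omega, by omega⟩
    have : m * n ≤ n + s * x := by omega
    zify [this]
    have hk' : (x : ℤ) + m = 2 * k + 1 := by exact_mod_cast hk
    linear_combination (n : ℤ) * hk'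
  have h2 : ∀ a, H a ≤ 2 := by
    intro a
    have := Nat.mod_lt ((n + s) * a) h2n
    have h3 : 3 * ((n + s) * a % (2 * n)) / (2 * n) < 3 := by
      rw [Nat.div_lt_iff_lt_mul h2n]
      omega
    exact Nat.lt_succ_iff.mp h3
  apply wr_of_nat n x hx hn H
  · intro a _
    exact (h2 a).trans (by norm_num)
  · intro a ha b hb hab
    rcases hab with h | h | h | h | h | h | h | h | h | h
    · rw [h]; exact s1 a
    · rw [h]; exact (s1 b).symm
    · rw [h]; exact sx a
    · rw [h]; exact (sx b).symm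
    · rw [h]; exact sn a
    · rw [h]; exact (sn b).symm
    · have := sx b; rw [h, hper] at this; exact this.symm
    · have := sx a; rw [h, hper] at this; exact this
    · have := s1 b; rw [h, hper] at this; exact this.symm
    · have := s1 a; rw [h, hper] at this; exact this
  · intro d _ h3
    have := h2 d
    omega

/-- The cycle on `ZMod n`. -/
def cyc (n : ℕ) : SimpleGraph (ZMod n) where
  Adj i j := i ≠ j ∧ (j = i + 1 ∨ i = j + 1)
  symm := ⟨fun _ _ h => ⟨h.1.symm, h.2.symm⟩⟩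
  loopless := ⟨fun _ h => h.1 rfl⟩

theorem cyc_wr (n : ℕ) (hn : 3 ≤ n) : WordRepresentable (cyc n) := by
  have : NeZero n := ⟨by omega⟩
  apply wordRepresentable_of_three (cyc n) (fun i => if i.val + 1 = n then 2 else i.val % 2)
  · rintro a b ⟨h0, h⟩
    have ha := ZMod.val_lt a
    have hb := ZMod.val_lt b
    have e1 := add_iff n a b 1 (by omega)
    have e2 := add_iff n b a 1 (by omega)
    rw [Nat.cast_one] at e1 e2
    rw [e1, e2] at h
    split_ifs <;> omega
  · intro a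
    split_ifs <;> omega

theorem cast_eq_iff (n p q : ℕ) (hn : 0 < n) (hp : p < 2 * n) (hq : q ≤ 2 * n) :
    (p : ZMod n) = q ↔ p = q ∨ p + n = q ∨ p = q + n ∨ p + 2 * n = q := by
  rw [ZMod.natCast_eq_natCast_iff]
  constructor
  · intro h
    have h' : p % n = q % n := h
    have e1 := Nat.div_add_mod p n
    have e2 := Nat.div_add_mod q n
    have f1 : p / n < 2 := by rw [Nat.div_lt_iff_lt_mul hn]; exact hp
    have f2 : q / n < 3 := by rw [Nat.div_lt_iff_lt_mul hn]; omega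
    rw [h'] at e1
    generalize p / n = u at *
    generalize q / n = v at *
    generalize q % n = r at *
    interval_cases u <;> interval_cases v <;> omega
  · rintro (h | h | h | h)
    · rw [h]
    · rw [← h]; simp [Nat.ModEq]
    · rw [h]; simp [Nat.ModEq]
    · rw [← h]; simp [Nat.ModEq]

theorem last (n : ℕ) (hn : 3 ≤ n) : WordRepresentable (circ n (n - 1)) := by
  have : NeZero n := ⟨by omega⟩
  have : NeZero (2 * n) := ⟨by omega⟩
  apply wordRepresentable_of_blowup (cyc n) (circ n (n - 1)) (fun i => ((i.val : ℕ) : ZMod n)) _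
    (cyc_wr n hn)
  intro a b hab
  rw [adj_iff n (n - 1) (by omega) (by omega)]
  have ha := ZMod.val_lt a
  have hb := ZMod.val_lt b
  have hne : a.val ≠ b.val := fun h => hab (ZMod.val_injective (2 * n) h)
  have e0 := cast_eq_iff n a.val b.val (by omega) ha (by omega)
  have e1 := cast_eq_iff n b.val (a.val + 1) (by omega) hb (by omega)
  have e2 := cast_eq_iff n a.val (b.val + 1) (by omega) ha (by omega)
  rw [Nat.cast_add, Nat.cast_one] at e1 e2
  show _ ↔ _ ∨ (_ ∧ _)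
  rw [ne_eq, e0, e1, e2]
  unfold NA
  omega

end Pool.Agent.R124.CircNat
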