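import Pool.Agent.R124.CircColour

/-!
# Circulant graphs through natural numbers
-/

set_option autoImplicit false

namespace Pool.Agent.R124.CircNat

open Pool.Agent.R124.SemiTransitive

/-- The circulant graph `C_{2n}(x,1,n)`. -/
def circ (n x : ℕ) : SimpleGraph (ZMod (2 * n)) where
  Adj i j := i ≠ j ∧ (j = i + 1 ∨ j = i - 1 ∨ j = i + x ∨ j = i - x ∨ j = i + n)
  symm := ⟨by
    have h2n : (n : ZMod (2 * n)) + n = 0 := by
      have := ZMod.natCast_self (2 * n)
      push_cast at this
      rw [← this]; ring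
    rintro i j ⟨h0, h⟩
    refine ⟨h0.symm, ?_⟩
    rcases h with h | h | h | h | h
    · right; left; rw [h]; ring
    · left; rw [h]; ring
    · right; right; right; left; rw [h]; ring
    · right; right; left; rw [h]; ring
    · right; right; right; right; rw [h, add_assoc, h2n, add_zero]⟩
  loopless := ⟨fun i h => h.1 rfl⟩

/-- Adjacency in terms of representatives. -/
def NA (n x a b : ℕ) : Prop :=
  b = a + 1 ∨ a = b + 1 ∨ b = a + x ∨ a = b + x ∨ b = a + n ∨ a = b + n ∨ b + x = a + 2 * n ∨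
    a + x = b + 2 * n ∨ b + 1 = a + 2 * n ∨ a + 1 = b + 2 * n

instance (n x a b : ℕ) : Decidable (NA n x a b) := by unfold NA; infer_instance

theorem add_iff (N : ℕ) [NeZero N] (i j : ZMod N) (c : ℕ) (hc : c < N) :
    j = i + c ↔ j.val = i.val + c ∨ j.val + N = i.val + c := by
  have hi := ZMod.val_lt i
  have hj := ZMod.val_lt j
  have key : (i + (c : ZMod N)).val = (i.val + c) % N := by
    rw [ZMod.val_add, ZMod.val_natCast, Nat.mod_eq_of_lt hc]
  constructor
  · intro h
    have h1 : j.val = (i.val + c) % N := by rw [h, key]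
    by_cases h2 : i.val + c < N
    · rw [Nat.mod_eq_of_lt h2] at h1
      exact Or.inl h1
    · push Not at h2
      rw [Nat.mod_eq_sub_mod h2, Nat.mod_eq_of_lt (by omega)] at h1
      right; omega
  · intro h
    apply ZMod.val_injective N
    rw [key]
    rcases h with h | h
    · rw [Nat.mod_eq_of_lt (by omega)]; exact h
    · rw [Nat.mod_eq_sub_mod (by omega), Nat.mod_eq_of_lt (by omega)]; omega

theorem adj_iff (n x : ℕ) (hx : 1 < x) (hn : x < n) [NeZero (2 * n)] (i j : ZMod (2 * n)) :
    (circ n x).Adj i j ↔ NA n x i.val j.val := by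
  have hi := ZMod.val_lt i
  have hj := ZMod.val_lt j
  have e1 := add_iff (2 * n) i j 1 (by omega)
  have e2 := add_iff (2 * n) j i 1 (by omega)
  have e3 := add_iff (2 * n) i j x (by omega)
  have e4 := add_iff (2 * n) j i x (by omega)
  have e5 := add_iff (2 * n) i j n (by omega)
  rw [Nat.cast_one] at e1 e2
  have s1 : j = i - 1 ↔ i = j + 1 := by
    constructor
    · rintro rfl; ring
    · rintro rfl; ring
  have s2 : j = i - x ↔ i = j + x := by
    constructor
    · rintro rfl; ring
    · rintro rfl; ring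
  show (i ≠ j ∧ (j = i + 1 ∨ j = i - 1 ∨ j = i + x ∨ j = i - x ∨ j = i + n)) ↔ _
  rw [s1, s2, e1, e2, e3, e4, e5]
  have hne : i ≠ j ↔ i.val ≠ j.val := by
    rw [not_iff_not]
    exact (ZMod.val_injective (2 * n)).eq_iff.symm
  rw [hne]
  unfold NA
  omega

theorem wr_of_nat (n x : ℕ) (hx : 1 < x) (hn : x < n) (H : ℕ → ℕ) (h3 : ∀ a < 2 * n, H a ≤ 3)
    (hne : ∀ a < 2 * n, ∀ b < 2 * n, NA n x a b → H a ≠ H b)
    (hp : ∀ d < 2 * n, H d = 3 → ∀ a < 2 * n, H a = 0 → NA n x a d → ∀ c < 2 * n, H c = 2 →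
      NA n x c d → ∀ b < 2 * n, H b = 1 → NA n x a b → NA n x b c →
      NA n x a c ∧ NA n x b d) : WordRepresentable (circ n x) := by
  have : NeZero (2 * n) := ⟨by omega⟩
  apply wordRepresentable_of_four (circ n x) (fun i => H i.val)
  · intro a b hab
    exact hne _ (ZMod.val_lt a) _ (ZMod.val_lt b) ((adj_iff n x hx hn a b).mp hab)
  · intro a
    exact h3 _ (ZMod.val_lt a)
  · intro a b c d hab hbc hcd had ha hb hc hd
    simp only [adj_iff n x hx hn] at *
    exact hp _ (ZMod.val_lt d) hd _ (ZMod.val_lt a) ha had _ (ZMod.val_lt c) hc hcd _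
      (ZMod.val_lt b) hb hab hbc

/-! ### The family `x = 2` -/

theorem two_mod_two (n : ℕ) (hn : 4 ≤ n) (h : n % 3 = 2) : WordRepresentable (circ n 2) := by
  apply wr_of_nat n 2 (by norm_num) (by omega) (fun a => if a + 1 = 2 * n then 3 else a % 3)
  · intro a _
    split_ifs <;> omega
  · intro a ha b hb hab
    unfold NA at hab
    split_ifs <;> omega
  · intro d hd h1 a ha h2 h3 c hc h4 h5 b hb h6 h7 h8
    unfold NA at *
    split_ifs at h1 h2 h4 h6 <;> omega

end Pool.Agent.R124.CircNat
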