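import Mathlib

/-!
# Counting Hamiltonian paths on sixteen vertices by a packed subset recursion
-/

set_option autoImplicit false

namespace Pool.Agent.R124.HamDP

/-! ### Packed numbers -/

/-- `∑_{m < 2^t} c m * 2^(w m)`. -/
def enc (w : ℕ) : ℕ → (ℕ → ℕ) → ℕ
  | 0, c => c 0
  | t + 1, c => 2 ^ (w * 2 ^ t) * enc w t (fun m => c (m + 2 ^ t)) + enc w t c

theorem enc_add (w t : ℕ) : ∀ c d : ℕ → ℕ, enc w t (fun m => c m + d m) = enc w t c + enc w t d := by
  induction t with
  | zero => intro c d; rfl
  | succ t ih =>
    intro c d
    simp only [enc]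
    rw [ih, ih]
    ring

theorem enc_congr (w t : ℕ) : ∀ c d : ℕ → ℕ, (∀ m < 2 ^ t, c m = d m) → enc w t c = enc w t d := by
  induction t with
  | zero => intro c d h; exact h 0 (by norm_num)
  | succ t ih =>
    intro c d h
    simp only [enc]
    rw [ih _ _ fun m hm => h (m + 2 ^ t) (by rw [pow_succ]; omega),
      ih _ _ fun m hm => h m (by rw [pow_succ]; omega)]

theorem enc_zero (w t : ℕ) : enc w t (fun _ => 0) = 0 := by
  induction t with
  | zero => rfl
  | succ t ih => simp [enc, ih]

theorem enc_single (w t : ℕ) : ∀ m0 < 2 ^ t,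
    enc w t (fun m => if m = m0 then 1 else 0) = 2 ^ (w * m0) := by
  induction t with
  | zero =>
    intro m0 h
    have : m0 = 0 := by simpa using h
    subst this
    simp [enc]
  | succ t ih =>
    intro m0 h
    simp only [enc]
    by_cases h1 : m0 < 2 ^ t
    · rw [ih m0 h1, enc_congr w t (fun m => if m + 2 ^ t = m0 then 1 else 0) (fun _ => 0)
        (fun m _ => by rw [if_neg (by omega)]), enc_zero]
      simp
    · push Not at h1
      rw [enc_congr w t (fun m => if m + 2 ^ t = m0 then 1 else 0)
        (fun m => if m = m0 - 2 ^ t then 1 else 0) (fun m _ => by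
          by_cases h2 : m + 2 ^ t = m0
          · rw [if_pos h2, if_pos (by omega)]
          · rw [if_neg h2, if_neg (by omega)]),
        ih (m0 - 2 ^ t) (by rw [pow_succ] at h; omega),
        enc_congr w t (fun m => if m = m0 then 1 else 0) (fun _ => 0)
          (fun m hm => by rw [if_neg (by omega)]), enc_zero, ← pow_add, ← mul_add,
        show 2 ^ t + (m0 - 2 ^ t) = m0 by omega, add_zero]

theorem enc_lt (w t : ℕ) : ∀ c : ℕ → ℕ, (∀ m < 2 ^ t, c m < 2 ^ w) → enc w t c < 2 ^ (w * 2 ^ t) := by
  induction t with
  | zero => intro c h; simpa [enc] using h 0 (by norm_num)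
  | succ t ih =>
    intro c h
    simp only [enc]
    have h1 := ih (fun m => c (m + 2 ^ t)) fun m hm => h _ (by rw [pow_succ]; omega)
    have h2 := ih c fun m hm => h _ (by rw [pow_succ]; omega)
    have e : w * 2 ^ (t + 1) = w * 2 ^ t + w * 2 ^ t := by rw [pow_succ]; ring
    rw [e, pow_add]
    nlinarith

theorem land_pack (i a b x y : ℕ) (ha : a < 2 ^ i) (hb : b < 2 ^ i) :
    (2 ^ i * x + a) &&& (2 ^ i * y + b) = 2 ^ i * (x &&& y) + (a &&& b) := by
  have hab : a &&& b < 2 ^ i := lt_of_le_of_lt Nat.and_le_left ha
  apply Nat.eq_of_testBit_eq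
  intro j
  rw [Nat.testBit_and, Nat.testBit_two_pow_mul_add x ha, Nat.testBit_two_pow_mul_add y hb,
    Nat.testBit_two_pow_mul_add _ hab]
  split_ifs <;> simp

/-- The packed mask of the index sets that avoid `v`. -/
def kmask (w v : ℕ) : ℕ → ℕ
  | 0 => 2 ^ w - 1
  | t + 1 => kmask w v t + (if t = v then 0 else kmask w v t) <<< (w * 2 ^ t)

theorem kmask_eq (w v t : ℕ) :
    kmask w v t = enc w t fun m => if m.testBit v then 0 else 2 ^ w - 1 := by
  induction t with
  | zero => simp [kmask, enc]
  | succ t ih =>
    simp only [kmask, enc]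
    rw [Nat.shiftLeft_eq, add_comm, mul_comm]
    congr 1
    congr 1
    by_cases h : t = v
    · subst h
      rw [if_pos rfl, enc_congr w t _ (fun _ => 0), enc_zero]
      intro m hm
      rw [if_pos]
      rw [add_comm, Nat.testBit_two_pow_add_eq, Nat.testBit_lt_two_pow hm]
      rfl
    · rw [if_neg h, ih]
      apply enc_congr
      intro m hm
      have : (m + 2 ^ t).testBit v = m.testBit v := by
        rcases lt_or_gt_of_ne h with h1 | h1
        · rw [Nat.testBit_lt_two_pow (lt_of_lt_of_le hm (Nat.pow_le_pow_right (by norm_num) h1.le)),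
            Nat.testBit_lt_two_pow]
          have : 2 ^ (t + 1) ≤ 2 ^ v := Nat.pow_le_pow_right (by norm_num) h1
          rw [pow_succ] at this
          omega
        · rw [add_comm, Nat.testBit_two_pow_add_gt h1]
      rw [this]

theorem enc_land (w t : ℕ) : ∀ c : ℕ → ℕ, (∀ m < 2 ^ t, c m < 2 ^ w) →
    ∀ s : ℕ → Bool, enc w t c &&& enc w t (fun m => if s m then 0 else 2 ^ w - 1) =
      enc w t (fun m => if s m then 0 else c m) := by
  induction t with
  | zero =>
    intro c h s
    simp only [enc]
    split_ifs
    · simp
    · exact Nat.and_two_pow_sub_one_of_lt_two_pow (h 0 (by norm_num))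
  | succ t ih =>
    intro c h s
    simp only [enc]
    have hw : 0 < 2 ^ w := by positivity
    rw [land_pack _ _ _ _ _ (enc_lt w t c fun m hm => h m (by rw [pow_succ]; omega))
      (enc_lt w t _ fun m hm => by split_ifs <;> omega)]
    rw [ih (fun m => c (m + 2 ^ t)) (fun m hm => h _ (by rw [pow_succ]; omega))
      (fun m => s (m + 2 ^ t)), ih c (fun m hm => h m (by rw [pow_succ]; omega)) s]

/-! ### Sums of powers -/

/-- `∑ 2^(w m)` over a list of numbers. -/
def pows (w : ℕ) (ms : List ℕ) : ℕ := (ms.map fun m => 2 ^ (w * m)).sum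

theorem pows_enc (w t : ℕ) (ms : List ℕ) (h : ∀ m ∈ ms, m < 2 ^ t) :
    pows w ms = enc w t fun m => ms.count m := by
  induction ms with
  | nil => simp [pows, enc_zero]
  | cons a ms ih =>
    have h1 : (fun m => (a :: ms).count m) = fun m => ms.count m + (if m = a then 1 else 0) := by
      funext m
      rw [List.count_cons]
      congr 1
      by_cases hm : m = a
      · simp [hm]
      · rw [if_neg hm, if_neg]
        simpa using fun h => hm h.symm
    rw [h1, enc_add, ← ih fun m hm => h m (List.mem_cons_of_mem _ hm),
      enc_single w t a (h a (by simp))]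
    simp [pows, add_comm]

theorem pows_land (w t v : ℕ) (ms : List ℕ) (h : ∀ m ∈ ms, m < 2 ^ t) (hl : ms.length < 2 ^ w) :
    pows w ms &&& kmask w v t = pows w (ms.filter fun m => !m.testBit v) := by
  rw [pows_enc w t ms h, kmask_eq, enc_land w t _ (fun m _ => lt_of_le_of_lt
    (List.count_le_length) hl) (fun m => m.testBit v), pows_enc w t]
  · apply enc_congr
    intro m _
    by_cases hv : m.testBit v = true
    · rw [if_pos hv, eq_comm, List.count_eq_zero]
      intro hm
      rw [List.mem_filter] at hm
      simp [hv] at hm
    · rw [if_neg hv, List.count_filter]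
      simpa using hv
  · intro m hm
    exact h m (List.mem_of_mem_filter hm)

/-! ### Masks -/

/-- The mask of a list of vertices. -/
def mask (l : List ℕ) : ℕ := (l.map fun x => 2 ^ x).sum

theorem testBit_add (x b i : ℕ) (h : b.testBit x = false) :
    (2 ^ x + b).testBit i = (decide (i = x) || b.testBit i) := by
  have hr : b % 2 ^ (x + 1) < 2 ^ x := by
    have h1 : (b % 2 ^ (x + 1)).testBit x = false := by
      rw [Nat.testBit_mod_two_pow, h]; simp
    rw [Nat.testBit_eq_decide_div_mod_eq, decide_eq_false_iff_not] at h1
    have h2 : b % 2 ^ (x + 1) / 2 ^ x < 2 := by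
      rw [Nat.div_lt_iff_lt_mul (by positivity), mul_comm, ← pow_succ]
      exact Nat.mod_lt _ (by positivity)
    have h3 : b % 2 ^ (x + 1) / 2 ^ x = 0 := by
      generalize b % 2 ^ (x + 1) / 2 ^ x = q at h1 h2
      omega
    rcases Nat.div_eq_zero_iff.mp h3 with h4 | h4
    · exfalso
      have : 0 < 2 ^ x := by positivity
      omega
    · exact h4
  have hb := Nat.div_add_mod b (2 ^ (x + 1))
  have e1 : 2 ^ x + b = 2 ^ (x + 1) * (b / 2 ^ (x + 1)) + (2 ^ x + b % 2 ^ (x + 1)) := by
    conv_lhs => rw [← hb]
    ring
  have hlt : 2 ^ x + b % 2 ^ (x + 1) < 2 ^ (x + 1) := by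
    have h5 : 2 ^ (x + 1) = 2 ^ x + 2 ^ x := by ring
    generalize b % 2 ^ (x + 1) = r at hr
    omega
  have e2 : b.testBit i = (2 ^ (x + 1) * (b / 2 ^ (x + 1)) + b % 2 ^ (x + 1)).testBit i := by
    rw [hb]
  rw [e1, e2, Nat.testBit_two_pow_mul_add _ hlt,
    Nat.testBit_two_pow_mul_add _ (Nat.mod_lt _ (by positivity))]
  rcases lt_trichotomy i x with h1 | h1 | h1
  · rw [if_pos (by omega), if_pos (by omega), Nat.testBit_two_pow_add_gt h1]
    simp [h1.ne]
  · subst h1
    rw [if_pos (by omega), Nat.testBit_two_pow_add_eq]
    have : (b % 2 ^ (i + 1)).testBit i = false := by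
      rw [Nat.testBit_mod_two_pow, h]; simp
    simp [this]
  · rw [if_neg (by omega), if_neg (by omega)]
    have : i ≠ x := by omega
    simp [this]

theorem testBit_mask (l : List ℕ) (hl : l.Nodup) (v : ℕ) :
    (mask l).testBit v = decide (v ∈ l) := by
  induction l generalizing v with
  | nil => simp [mask]
  | cons x l ih =>
    rw [List.nodup_cons] at hl
    have h1 : mask (x :: l) = 2 ^ x + mask l := by simp [mask]
    rw [h1, testBit_add _ _ _ (by rw [ih hl.2]; simpa using hl.1), ih hl.2]
    simp

theorem mask_lt (l : List ℕ) (hl : l.Nodup) (t : ℕ) (h : ∀ x ∈ l, x < t) : mask l < 2 ^ t := by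
  apply Nat.lt_pow_two_of_testBit
  intro i hi
  rw [testBit_mask l hl]
  simp only [decide_eq_false_iff_not]
  intro hm
  have := h i hm
  omega

/-! ### Paths -/

/-- Paths with `k + 1` vertices beginning in `v`. -/
def paths (G : List (List ℕ)) : ℕ → ℕ → List (List ℕ)
  | 0, v => [[v]]
  | k + 1, v => (((G.getD v []).flatMap fun u => paths G k u).filter fun l => !l.contains v).map
      fun l => v :: l

variable (G : List (List ℕ))

theorem mem_paths (k : ℕ) : ∀ (v : ℕ) (l : List ℕ), l ∈ paths G k v ↔
    l.length = k + 1 ∧ l.head? = some v ∧ l.Nodup ∧ l.IsChain fun x y => y ∈ G.getD x [] := by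
  induction k with
  | zero =>
    intro v l
    simp only [paths, List.mem_singleton]
    constructor
    · rintro rfl; simp
    · rintro ⟨h1, h2, _, _⟩
      match l, h1, h2 with
      | [a], _, h2 => simpa using h2
  | succ k ih =>
    intro v l
    simp only [paths, List.mem_map, List.mem_filter, List.mem_flatMap]
    constructor
    · rintro ⟨l', ⟨⟨u, hu, hl'⟩, hv⟩, rfl⟩
      rw [ih] at hl'
      obtain ⟨h1, h2, h3, h4⟩ := hl'
      refine ⟨by simp [h1], rfl, ?_, ?_⟩
      · rw [List.nodup_cons]
        exact ⟨by simpa using hv, h3⟩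
      · rw [List.isChain_cons]
        exact ⟨fun y hy => by rw [h2] at hy; simp at hy; rw [← hy]; exact hu, h4⟩
    · rintro ⟨h1, h2, h3, h4⟩
      match l, h1, h2, h3, h4 with
      | a :: l', h1, h2, h3, h4 =>
        have hav : a = v := by simpa using h2
        subst hav
        rw [List.nodup_cons] at h3
        rw [List.isChain_cons] at h4
        match l', h1, h3, h4 with
        | b :: l'', h1, h3, h4 =>
          refine ⟨b :: l'', ⟨⟨b, h4.1 b (by simp), ?_⟩, by simpa using h3.1⟩, rfl⟩
          rw [ih]
          exact ⟨by simpa using h1, rfl, h3.2, h4.2⟩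

theorem nodup_paths (hG : ∀ nb ∈ G, nb.Nodup) (k : ℕ) : ∀ v, (paths G k v).Nodup := by
  induction k with
  | zero => intro v; simp [paths]
  | succ k ih =>
    intro v
    simp only [paths]
    apply List.Nodup.map (fun a b h => (List.cons.inj h).2)
    apply List.Nodup.filter
    rw [List.nodup_flatMap]
    refine ⟨fun u _ => ih u, ?_⟩
    have hnd : (G.getD v []).Nodup := by
      rcases Nat.lt_or_ge v G.length with h | h
      · rw [List.getD_eq_getElem _ _ h]
        exact hG _ (List.getElem_mem h)
      · rw [List.getD_eq_default _ _ h]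
        exact List.nodup_nil
    apply hnd.imp
    intro a b hab
    simp only [Function.onFun, List.disjoint_left]
    intro l h1 h2
    rw [mem_paths] at h1 h2
    rw [h1.2.1] at h2
    exact hab (by simpa using h2.2.1)

theorem length_paths (hG : ∀ nb ∈ G, nb.length ≤ 16) (k : ℕ) :
    ∀ v, (paths G k v).length ≤ 16 ^ k := by
  induction k with
  | zero => intro v; simp [paths]
  | succ k ih =>
    intro v
    simp only [paths, List.length_map]
    refine le_trans (List.length_filter_le _ _) ?_
    rw [List.length_flatMap]
    have h1 : (G.getD v []).length ≤ 16 := by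
      rcases Nat.lt_or_ge v G.length with h | h
      · rw [List.getD_eq_getElem _ _ h]
        exact hG _ (List.getElem_mem h)
      · rw [List.getD_eq_default _ _ h]
        simp
    have h2 : ((G.getD v []).map fun u => (paths G k u).length).sum ≤
        (G.getD v []).length * 16 ^ k := by
      have := List.sum_le_card_nsmul ((G.getD v []).map fun u => (paths G k u).length) (16 ^ k)
        (by intro x hx; rw [List.mem_map] at hx; obtain ⟨u, _, rfl⟩ := hx; exact ih u)
      simpa using this
    calc _ ≤ (G.getD v []).length * 16 ^ k := h2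
      _ ≤ 16 * 16 ^ k := Nat.mul_le_mul_right _ h1
      _ = _ := by ring

/-- The packed count of a list of paths. -/
def E (w : ℕ) (P : List (List ℕ)) : ℕ := pows w (P.map mask)

theorem E_flatMap (w : ℕ) (nb : List ℕ) (f : ℕ → List (List ℕ)) :
    E w (nb.flatMap f) = (nb.map fun u => E w (f u)).sum := by
  induction nb with
  | nil => simp [E, pows]
  | cons a nb ih =>
    rw [List.flatMap_cons, List.map_cons, List.sum_cons, ← ih]
    simp [E, pows]

/-- One step of the recursion. -/
def stepv (w : ℕ) (K : List ℕ) (st : List ℕ) (v : ℕ) (nb : List ℕ) : ℕ :=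
  (((nb.map fun u => st.getD u 0).sum) &&& (K.getD v 0)) <<< (w * 2 ^ v)

/-- Evaluate a number before it is used. -/
def forceN (x : ℕ) (f : ℕ → ℕ) : ℕ := match x with
  | 0 => f 0
  | n + 1 => f (n + 1)

theorem forceN_eq (x : ℕ) (f : ℕ → ℕ) : forceN x f = f x := by
  cases x <;> rfl

/-- One layer. -/
def stepL (w : ℕ) (K st : List ℕ) : ℕ → List (List ℕ) → (List ℕ → ℕ) → ℕ
  | _, [], c => c []
  | v, nb :: rest, c =>
    forceN (stepv w K st v nb) fun x => stepL w K st (v + 1) rest fun l => c (x :: l)

/-- The layer as a list. -/
def layer (w : ℕ) (K st : List ℕ) : ℕ → List (List ℕ) → List ℕ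
  | _, [] => []
  | v, nb :: rest => stepv w K st v nb :: layer w K st (v + 1) rest

theorem stepL_eq (w : ℕ) (K st : List ℕ) (H : List (List ℕ)) : ∀ (v : ℕ) (c : List ℕ → ℕ),
    stepL w K st v H c = c (layer w K st v H) := by
  induction H with
  | nil => intro v c; rfl
  | cons nb rest ih =>
    intro v c
    simp only [stepL, layer]
    rw [forceN_eq, ih]

theorem layer_get (w : ℕ) (K st : List ℕ) (H : List (List ℕ)) : ∀ (v i : ℕ) (h : i < H.length),
    (layer w K st v H)[i]? = some (stepv w K st (v + i) H[i]) := by
  induction H with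
  | nil => intro v i h; simp at h
  | cons nb rest ih =>
    intro v i h
    simp only [layer]
    rcases i with _ | i
    · simp
    · rw [List.getElem?_cons_succ, ih (v + 1) i (by simpa using h)]
      simp only [List.getElem_cons_succ]
      congr 2
      omega

theorem layer_length (w : ℕ) (K st : List ℕ) (H : List (List ℕ)) : ∀ v,
    (layer w K st v H).length = H.length := by
  induction H with
  | nil => intro v; rfl
  | cons nb rest ih => intro v; simp [layer, ih]

/-- The recursion over all layers. -/
def runD (w : ℕ) (K : List ℕ) (G : List (List ℕ)) : ℕ → List ℕ → ℕ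
  | 0, st => st.sum
  | k + 1, st => stepL w K st 0 G fun st' => runD w K G k st'

/-- All masks. -/
def Ks (w : ℕ) : List ℕ := (List.range 16).map fun v => kmask w v 16

/-- The number of Hamiltonian paths, computed. -/
def total (w : ℕ) (G : List (List ℕ)) : ℕ :=
  runD w (Ks w) G 15 ((List.range 16).map fun v => 1 <<< (w * 2 ^ v)) >>> (w * 65535)

theorem layer_step (w : ℕ) (hw : 16 ^ 15 < 2 ^ w) (hG1 : G.length = 16) (hG2 : ∀ nb ∈ G, ∀ u ∈ nb, u < 16)
    (hG3 : ∀ nb ∈ G, nb.length ≤ 16) (k : ℕ) (hk : k < 15) (st : List ℕ)
    (hst : st = (List.range 16).map fun v => E w (paths G k v)) :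
    layer w (Ks w) st 0 G = (List.range 16).map fun v => E w (paths G (k + 1) v) := by
  apply List.ext_getElem?
  intro i
  rcases Nat.lt_or_ge i 16 with hi | hi
  · rw [layer_get _ _ _ _ _ _ (by omega), zero_add, List.getElem?_map, List.getElem?_range hi]
    simp only [Option.map_some]
    congr 1
    unfold stepv
    have hget : G.getD i [] = G[i] := List.getD_eq_getElem _ _ (by omega)
    have hmem : G[i] ∈ G := List.getElem_mem (by omega)
    have e1 : (G[i].map fun u => st.getD u 0) = G[i].map fun u => E w (paths G k u) := by
      apply List.map_congr_left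
      intro u hu
      have hu16 := hG2 _ hmem u hu
      rw [hst, List.getD_eq_getElem?_getD, List.getElem?_map, List.getElem?_range hu16]
      rfl
    have e2 : (Ks w).getD i 0 = kmask w i 16 := by
      rw [Ks, List.getD_eq_getElem?_getD, List.getElem?_map, List.getElem?_range hi]
      rfl
    rw [e1, e2, ← E_flatMap]
    have hnd : ∀ l ∈ G[i].flatMap fun u => paths G k u, l.Nodup ∧ ∀ x ∈ l, x < 16 := by
      intro l hl
      rw [List.mem_flatMap] at hl
      obtain ⟨u, hu, hl⟩ := hl
      rw [mem_paths] at hl
      refine ⟨hl.2.2.1, ?_⟩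
      -- all vertices are small
      have hu16 := hG2 _ hmem u hu
      have key : ∀ (l : List ℕ) (u : ℕ), u < 16 → l.head? = some u →
          l.IsChain (fun x y => y ∈ G.getD x []) → ∀ x ∈ l, x < 16 := by
        intro l
        induction l with
        | nil => intro u _ _ _ x hx; simp at hx
        | cons a l ih =>
          intro u hu hh hc x hx
          have hau : a = u := by simpa using hh
          subst hau
          rw [List.isChain_cons] at hc
          rcases List.mem_cons.mp hx with rfl | hx
          · exact hu
          · match l, ih, hc, hx with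
            | b :: l', ih, hc, hx =>
              have hb : b ∈ G.getD a [] := hc.1 b (by simp)
              have ha : a < G.length := by omega
              rw [List.getD_eq_getElem _ _ ha] at hb
              exact ih b (hG2 _ (List.getElem_mem ha) b hb) rfl hc.2 x hx
      exact key l u hu16 hl.2.1 hl.2.2.2
    unfold E
    rw [pows_land w 16 i _ ?_ ?_]
    · -- shift
      have e3 : ((G[i].flatMap fun u => paths G k u).map mask).filter (fun m => !m.testBit i) =
          ((G[i].flatMap fun u => paths G k u).filter fun l => !l.contains i).map mask := by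
        rw [List.filter_map]
        congr 1
        apply List.filter_congr
        intro l hl
        simp only [Function.comp]
        rw [testBit_mask l (hnd l hl).1]
        simp
      rw [e3, paths, hget]
      generalize hF : (G[i].flatMap fun u => paths G k u).filter (fun l => !l.contains i) = F
      rw [Nat.shiftLeft_eq, List.map_map]
      clear hF e3
      induction F with
      | nil => simp [pows]
      | cons l F ih =>
        simp only [pows, List.map_cons, List.sum_cons, List.map_map] at ih ⊢
        rw [add_mul, ih]
        congr 1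
        have : mask (i :: l) = mask l + 2 ^ i := by simp [mask, add_comm]
        simp only [Function.comp, this]
        rw [mul_add, pow_add]
    · intro m hm
      rw [List.mem_map] at hm
      obtain ⟨l, hl, rfl⟩ := hm
      exact mask_lt l (hnd l hl).1 16 (hnd l hl).2
    · rw [List.length_map]
      have h1 : (paths G (k + 1) i).length ≤ 16 ^ (k + 1) := length_paths G hG3 (k + 1) i
      have h2 : (G[i].flatMap fun u => paths G k u).length ≤ 16 ^ (k + 1) := by
        rw [List.length_flatMap]
        have := List.sum_le_card_nsmul (G[i].map fun u => (paths G k u).length) (16 ^ k)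
          (by intro x hx; rw [List.mem_map] at hx; obtain ⟨u, _, rfl⟩ := hx
              exact length_paths G hG3 k u)
        have h3 := hG3 _ hmem
        calc _ ≤ G[i].length * 16 ^ k := by simpa using this
          _ ≤ 16 * 16 ^ k := Nat.mul_le_mul_right _ h3
          _ = _ := by ring
      calc _ ≤ 16 ^ (k + 1) := h2
        _ ≤ 16 ^ 15 := Nat.pow_le_pow_right (by norm_num) (by omega)
        _ < 2 ^ w := hw
  · rw [List.getElem?_eq_none (by rw [layer_length]; omega),
      List.getElem?_eq_none (by simp; omega)]

theorem runD_eq (w : ℕ) (hw : 16 ^ 15 < 2 ^ w) (hG1 : G.length = 16) (hG2 : ∀ nb ∈ G, ∀ u ∈ nb, u < 16)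
    (hG3 : ∀ nb ∈ G, nb.length ≤ 16) (j : ℕ) : ∀ k, k + j ≤ 15 → ∀ st : List ℕ,
    st = ((List.range 16).map fun v => E w (paths G k v)) →
    runD w (Ks w) G j st = ((List.range 16).map fun v => E w (paths G (k + j) v)).sum := by
  induction j with
  | zero => intro k _ st hst; rw [runD, hst]; rfl
  | succ j ih =>
    intro k hk st hst
    rw [runD, stepL_eq, ih (k + 1) (by omega) _ (layer_step G w hw hG1 hG2 hG3 k (by omega) st hst)]
    rw [show k + 1 + j = k + (j + 1) by omega]

/-- The number of Hamiltonian paths. -/
theorem total_eq (w : ℕ) (hw : 16 ^ 15 < 2 ^ w) (hG1 : G.length = 16) (hG2 : ∀ nb ∈ G, ∀ u ∈ nb, u < 16)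
    (hG3 : ∀ nb ∈ G, nb.length ≤ 16) :
    total w G = ((List.range 16).map fun v => (paths G 15 v).length).sum := by
  unfold total
  rw [runD_eq G w hw hG1 hG2 hG3 15 0 (by norm_num)]
  · rw [zero_add]
    have h1 : ∀ v ∈ List.range 16, E w (paths G 15 v) =
        (paths G 15 v).length * 2 ^ (w * 65535) := by
      intro v hv
      have hmask : ∀ l ∈ paths G 15 v, mask l = 65535 := by
        intro l hl
        have hl' := (mem_paths G 15 v l).mp hl
        obtain ⟨a1, a2, a3, a4⟩ := hl'
        -- all vertices are below sixteen
        have key : ∀ (l : List ℕ) (u : ℕ), u < 16 → l.head? = some u →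
            l.IsChain (fun x y => y ∈ G.getD x []) → ∀ x ∈ l, x < 16 := by
          intro l
          induction l with
          | nil => intro u _ _ _ x hx; simp at hx
          | cons a l ih =>
            intro u hu hh hc x hx
            have hau : a = u := by simpa using hh
            subst hau
            rw [List.isChain_cons] at hc
            rcases List.mem_cons.mp hx with rfl | hx
            · exact hu
            · match l, ih, hc, hx with
              | b :: l', ih, hc, hx =>
                have hb : b ∈ G.getD a [] := hc.1 b (by simp)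
                have ha : a < G.length := by omega
                rw [List.getD_eq_getElem _ _ ha] at hb
                exact ih b (hG2 _ (List.getElem_mem ha) b hb) rfl hc.2 x hx
        have hsm := key l v (List.mem_range.mp hv) a2 a4
        have hperm : l.Perm (List.range 16) := by
          apply List.Subperm.perm_of_length_le
          · apply List.Nodup.subperm a3
            intro x hx
            exact List.mem_range.mpr (hsm x hx)
          · simp [a1]
        unfold mask
        rw [(hperm.map _).sum_eq]
        decide +kernel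
      unfold E pows
      rw [List.map_map]
      have : ∀ P : List (List ℕ), (∀ l ∈ P, mask l = 65535) →
          (P.map ((fun m => 2 ^ (w * m)) ∘ mask)).sum = P.length * 2 ^ (w * 65535) := by
        intro P hP
        induction P with
        | nil => simp
        | cons l P ih =>
          rw [List.map_cons, List.sum_cons, ih fun l hl => hP l (List.mem_cons_of_mem _ hl)]
          simp only [Function.comp, hP l (by simp), List.length_cons]
          rw [Nat.add_mul, one_mul, add_comm]
      exact this _ hmask
    rw [List.map_congr_left h1]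
    have h2 : ((List.range 16).map fun v => (paths G 15 v).length * 2 ^ (w * 65535)).sum =
        ((List.range 16).map fun v => (paths G 15 v).length).sum * 2 ^ (w * 65535) := by
      rw [List.sum_map_mul_right]
    rw [h2, Nat.shiftRight_eq_div_pow, Nat.mul_div_cancel _ (by positivity)]
  · apply List.map_congr_left
    intro v _
    simp [E, pows, paths, mask, Nat.shiftLeft_eq]

end Pool.Agent.R124.HamDP
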