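import Mathlib

/-!
# The function `T_u(n)` and unioccurrent palindromic suffixes of initial segments
-/

set_option autoImplicit false
set_option linter.unusedSectionVars false

namespace Pool.Agent.R124.PalT

variable {A : Type}

/-- The factor of length `n` of the infinite word `u` at position `i`. -/
def fac (u : ℕ → A) (i n : ℕ) : List A := (List.range n).map fun j => u (i + j)

/-- The language of `u`: the set of its finite factors (the empty word included). -/
def Lang (u : ℕ → A) : Set (List A) := {w | ∃ i, w = fac u i w.length}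

/-- Factor complexity: the number of factors of length `n`. -/
noncomputable def Cx (u : ℕ → A) (n : ℕ) : ℕ := Set.ncard {w : List A | w ∈ Lang u ∧ w.length = n}

/-- Palindromic complexity: the number of palindromic factors of length `n`. -/
noncomputable def Px (u : ℕ → A) (n : ℕ) : ℕ :=
  Set.ncard {w : List A | w ∈ Lang u ∧ w.length = n ∧ w.reverse = w}

/-- `T_u(n) = C_u(n+1) - C_u(n) + 2 - P_u(n+1) - P_u(n)`. -/
noncomputable def T (u : ℕ → A) (n : ℕ) : ℤ :=
  (Cx u (n + 1) : ℤ) - Cx u n + 2 - Px u (n + 1) - Px u n

/-- The language of `u` is closed under reversal. -/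
def ClosedUnderReversal (u : ℕ → A) : Prop := ∀ w ∈ Lang u, w.reverse ∈ Lang u

/-- The language of `u` contains infinitely many palindromes. -/
def InfinitelyManyPalindromes (u : ℕ → A) : Prop := {w | w ∈ Lang u ∧ w.reverse = w}.Infinite

/-! ### Basic facts -/

@[simp] theorem fac_length (u : ℕ → A) (i n : ℕ) : (fac u i n).length = n := by simp [fac]

theorem fac_get (u : ℕ → A) (i n j : ℕ) (h : j < n) : (fac u i n)[j]? = some (u (i + j)) := by
  simp [fac, h]

theorem fac_eq_iff (u : ℕ → A) (i j n : ℕ) :
    fac u i n = fac u j n ↔ ∀ x < n, u (i + x) = u (j + x) := by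
  constructor
  · intro h x hx
    have := congrArg (fun l => l[x]?) h
    simp only [fac_get u i n x hx, fac_get u j n x hx, Option.some.injEq] at this
    exact this
  · intro h
    apply List.ext_getElem?
    intro x
    by_cases hx : x < n
    · rw [fac_get u i n x hx, fac_get u j n x hx, h x hx]
    · rw [List.getElem?_eq_none (by simp; omega), List.getElem?_eq_none (by simp; omega)]

theorem fac_eq_reverse_iff (u : ℕ → A) (i j n : ℕ) :
    fac u i n = (fac u j n).reverse ↔ ∀ x < n, u (i + x) = u (j + (n - 1 - x)) := by
  constructor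
  · intro h x hx
    have := congrArg (fun l => l[x]?) h
    rw [fac_get u i n x hx, List.getElem?_reverse (by simpa using hx), fac_length,
      fac_get u j n _ (by omega), Option.some.injEq] at this
    exact this
  · intro h
    apply List.ext_getElem?
    intro x
    by_cases hx : x < n
    · rw [fac_get u i n x hx, List.getElem?_reverse (by simpa using hx), fac_length,
        fac_get u j n _ (by omega), h x hx]
    · rw [List.getElem?_eq_none (by simp; omega), List.getElem?_eq_none (by simp; omega)]

theorem fac_mem (u : ℕ → A) (i n : ℕ) : fac u i n ∈ Lang u := ⟨i, by rw [fac_length]⟩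

/-- The segment `u[s..m)` is a palindrome. -/
def PalSeg (u : ℕ → A) (s m : ℕ) : Prop := ∀ x, x < m - s → u (s + x) = u (m - 1 - x)

theorem palSeg_iff (u : ℕ → A) (s n : ℕ) : PalSeg u s (s + n) ↔ (fac u s n).reverse = fac u s n := by
  rw [eq_comm, fac_eq_reverse_iff]
  unfold PalSeg
  constructor
  · intro h x hx
    rw [h x (by omega)]; congr 1; omega
  · intro h x hx
    rw [h x (by omega)]; congr 1; omega

/-- `u[0..m)` has a palindromic suffix that occurs in it only once. -/
def Uni (u : ℕ → A) (m : ℕ) : Prop :=
  ∃ s, s < m ∧ PalSeg u s m ∧ ∀ t, t < s → ∃ x, x < m - s ∧ u (t + x) ≠ u (s + x)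

/-- Positions at which a class `{w, reverse w}` of factors of length `n` appears first. -/
def New (u : ℕ → A) (n : ℕ) : Set ℕ :=
  {i | ∀ j, j < i → fac u j n ≠ fac u i n ∧ fac u j n ≠ (fac u i n).reverse}

theorem exists_new (u : ℕ → A) (n i : ℕ) :
    ∃ j, j ≤ i ∧ j ∈ New u n ∧ (fac u j n = fac u i n ∨ fac u j n = (fac u i n).reverse) := by
  classical
  have hex : ∃ j, fac u j n = fac u i n ∨ fac u j n = (fac u i n).reverse := ⟨i, Or.inl rfl⟩
  refine ⟨Nat.find hex, Nat.find_min' hex (Or.inl rfl), ?_, Nat.find_spec hex⟩
  intro k hk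
  have h1 := Nat.find_min hex hk
  push Not at h1
  rcases Nat.find_spec hex with h2 | h2
  · rw [h2]; exact h1
  · rw [h2, List.reverse_reverse]; exact ⟨h1.2, h1.1⟩

theorem new_inj (u : ℕ → A) (n i j : ℕ) (hi : i ∈ New u n) (hj : j ∈ New u n)
    (h : fac u i n = fac u j n ∨ fac u i n = (fac u j n).reverse) : i = j := by
  rcases lt_trichotomy i j with h1 | h1 | h1
  · have := hj i h1
    rcases h with h | h
    · exact absurd h this.1
    · exact absurd h this.2
  · exact h1
  · have := hi j h1
    rcases h with h | h
    · exact absurd h.symm this.1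
    · refine absurd ?_ this.2
      rw [h, List.reverse_reverse]

variable [Finite A]

theorem factors_finite (u : ℕ → A) (n : ℕ) : {w : List A | w ∈ Lang u ∧ w.length = n}.Finite :=
  (List.finite_length_eq A n).subset fun _ h => h.2

theorem count_classes (u : ℕ → A) (hrev : ClosedUnderReversal u) (n : ℕ) :
    Cx u n + Px u n = 2 * (New u n).ncard := by
  set φ : ℕ → List A := fun i => fac u i n with hφ
  set S := φ '' New u n with hS
  set S' := List.reverse '' S with hS'
  have hinj : Set.InjOn φ (New u n) := fun i hi j hj h => new_inj u n i j hi hj (Or.inl h)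
  have hSc : S.ncard = (New u n).ncard := hinj.ncard_image
  have hSc' : S'.ncard = S.ncard := Set.ncard_image_of_injective _ List.reverse_injective
  have hF := factors_finite u n
  have hSF : S ⊆ {w : List A | w ∈ Lang u ∧ w.length = n} := by
    rintro w ⟨i, _, rfl⟩
    exact ⟨fac_mem u i n, fac_length u i n⟩
  have hSF' : S' ⊆ {w : List A | w ∈ Lang u ∧ w.length = n} := by
    rintro w ⟨v, hv, rfl⟩
    exact ⟨hrev v (hSF hv).1, by rw [List.length_reverse]; exact (hSF hv).2⟩
  have hunion : S ∪ S' = {w : List A | w ∈ Lang u ∧ w.length = n} := by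
    apply Set.Subset.antisymm (Set.union_subset hSF hSF')
    rintro w ⟨⟨i, hi⟩, hw⟩
    rw [hw] at hi
    obtain ⟨j, _, hj, h | h⟩ := exists_new u n i
    · left; exact ⟨j, hj, by rw [hi]; exact h⟩
    · right
      refine ⟨fac u j n, ⟨j, hj, rfl⟩, ?_⟩
      rw [h, List.reverse_reverse, hi]
  have hinter : S ∩ S' = {w : List A | w ∈ Lang u ∧ w.length = n ∧ w.reverse = w} := by
    apply Set.Subset.antisymm
    · rintro w ⟨⟨i, hi, rfl⟩, ⟨v, ⟨j, hj, rfl⟩, h⟩⟩
      have hij : i = j := new_inj u n i j hi hj (Or.inr h.symm)
      subst hij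
      exact ⟨fac_mem u i n, fac_length u i n, h⟩
    · rintro w ⟨⟨i, hi⟩, hw, hp⟩
      rw [hw] at hi
      obtain ⟨j, _, hj, h⟩ := exists_new u n i
      have h' : fac u j n = w := by
        rcases h with h | h
        · rw [h, hi]
        · rw [h, ← hi, hp]
      exact ⟨⟨j, hj, h'⟩, ⟨w, ⟨j, hj, h'⟩, hp⟩⟩
  have := Set.ncard_union_add_ncard_inter S S' (hF.subset hSF) (hF.subset hSF')
  rw [hunion, hinter] at this
  unfold Cx Px
  rw [this, hSc', hSc]
  ring

theorem new_finite (u : ℕ → A) (n : ℕ) : (New u n).Finite := by
  apply Set.Finite.of_finite_image (f := fun i => fac u i n)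
  · apply (factors_finite u n).subset
    rintro w ⟨i, _, rfl⟩
    exact ⟨fac_mem u i n, fac_length u i n⟩
  · exact fun i hi j hj h => new_inj u n i j hi hj (Or.inl h)

theorem count_pal (u : ℕ → A) (n : ℕ) :
    ({i | i ∈ New u n ∧ (fac u i n).reverse = fac u i n} : Set ℕ).ncard = Px u n := by
  have hinj : Set.InjOn (fun i => fac u i n)
      {i | i ∈ New u n ∧ (fac u i n).reverse = fac u i n} :=
    fun i hi j hj h => new_inj u n i j hi.1 hj.1 (Or.inl h)
  rw [← hinj.ncard_image]
  unfold Px
  congr 1
  ext w
  constructor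
  · rintro ⟨i, ⟨_, hp⟩, rfl⟩
    exact ⟨fac_mem u i n, fac_length u i n, hp⟩
  · rintro ⟨⟨i, hi⟩, hw, hp⟩
    rw [hw] at hi
    obtain ⟨j, _, hj, h⟩ := exists_new u n i
    have h' : fac u j n = w := by
      rcases h with h | h
      · rw [h, hi]
      · rw [h, ← hi, hp]
    exact ⟨j, ⟨hj, by rw [h']; exact hp⟩, h'⟩

theorem fac_pal_iff (u : ℕ → A) (i n : ℕ) :
    (fac u i n).reverse = fac u i n ↔ ∀ x < n, u (i + x) = u (i + (n - 1 - x)) := by
  rw [eq_comm, fac_eq_reverse_iff]

theorem new_step (u : ℕ → A) (M : ℕ) (hU : ∀ m, M ≤ m → Uni u m) (n : ℕ) (hn : M ≤ n) (i : ℕ) :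
    i + 1 ∈ New u n ↔ i ∈ New u (n + 1) ∧ ¬ (fac u i (n + 1)).reverse = fac u i (n + 1) := by
  constructor
  · intro h
    constructor
    · intro j hj
      constructor
      · intro he
        rw [fac_eq_iff] at he
        refine (h (j + 1) (by omega)).1 ?_
        rw [fac_eq_iff]
        intro x hx
        have := he (x + 1) (by omega)
        rw [show j + 1 + x = j + (x + 1) by omega, show i + 1 + x = i + (x + 1) by omega]
        exact this
      · intro he
        rw [fac_eq_reverse_iff] at he
        refine (h j (by omega)).2 ?_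
        rw [fac_eq_reverse_iff]
        intro x hx
        rw [he x (by omega)]
        congr 1
        omega
    · intro hp
      rw [fac_pal_iff] at hp
      refine (h i (by omega)).2 ?_
      rw [fac_eq_reverse_iff]
      intro x hx
      rw [hp x (by omega)]
      congr 1
      omega
  · rintro ⟨h1, h2⟩ j hj
    obtain ⟨s, hs1, hs2, hs3⟩ := hU (i + n + 1) (by omega)
    constructor
    · intro he
      rw [fac_eq_iff] at he
      rcases Nat.lt_or_ge i s with hsi | hsi
      · -- the suffix is short
        obtain ⟨x, hx1, hx2⟩ := hs3 (j + (s - (i + 1))) (by omega)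
        apply hx2
        have := he (s - (i + 1) + x) (by omega)
        rw [show j + (s - (i + 1)) + x = j + (s - (i + 1) + x) by omega, this]
        congr 1
        omega
      · rcases Nat.eq_or_lt_of_le hsi with hsi | hsi
        · subst hsi
          apply h2
          rw [fac_pal_iff]
          intro x hx
          rw [hs2 x (by omega)]
          congr 1
          omega
        · refine (h1 s hsi).2 ?_
          rw [fac_eq_reverse_iff]
          intro x hx
          rw [hs2 x (by omega)]
          congr 1
          omega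
    · intro he
      rw [fac_eq_reverse_iff] at he
      rcases Nat.lt_or_ge i s with hsi | hsi
      · obtain ⟨x, hx1, hx2⟩ := hs3 j (by omega)
        apply hx2
        rw [he x (by omega), hs2 x hx1]
        congr 1
        omega
      · rcases Nat.eq_or_lt_of_le hsi with hsi | hsi
        · subst hsi
          apply h2
          rw [fac_pal_iff]
          intro x hx
          rw [hs2 x (by omega)]
          congr 1
          omega
        · refine (h1 s hsi).2 ?_
          rw [fac_eq_reverse_iff]
          intro x hx
          rw [hs2 x (by omega)]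
          congr 1
          omega

/-- If all long initial segments have unioccurrent palindromic suffixes, then `T_u` vanishes
eventually. -/
theorem T_eq_zero (u : ℕ → A) (hrev : ClosedUnderReversal u) (M : ℕ)
    (hU : ∀ m, M ≤ m → Uni u m) (n : ℕ) (hn : M ≤ n) : T u n = 0 := by
  have e1 := count_classes u hrev n
  have e2 := count_classes u hrev (n + 1)
  have e3 := count_pal u (n + 1)
  have h0 : New u n = {0} ∪ Nat.succ '' (New u (n + 1) \
      {i | i ∈ New u (n + 1) ∧ (fac u i (n + 1)).reverse = fac u i (n + 1)}) := by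
    ext i
    rcases i with _ | i
    · simp only [Set.singleton_union, Set.mem_insert_iff, true_or, iff_true]
      intro j hj
      omega
    · rw [new_step u M hU n hn i]
      simp only [Set.singleton_union, Set.mem_insert_iff, Nat.add_eq_zero_iff, one_ne_zero,
        and_false, false_or, Set.mem_image, Set.mem_sdiff]
      constructor
      · rintro ⟨h1, h2⟩
        exact ⟨i, ⟨h1, fun h => h2 h.2⟩, rfl⟩
      · rintro ⟨j, ⟨h1, h2⟩, h3⟩
        have : j = i := Nat.succ_injective h3
        subst this
        exact ⟨h1, fun h => h2 ⟨h1, h⟩⟩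
  have hfin := new_finite u (n + 1)
  have hsub : {i | i ∈ New u (n + 1) ∧ (fac u i (n + 1)).reverse = fac u i (n + 1)} ⊆
      New u (n + 1) := fun i hi => hi.1
  have h1 : (New u n).ncard = 1 + ((New u (n + 1)).ncard - Px u (n + 1)) := by
    have hdis : Disjoint ({0} : Set ℕ) (Nat.succ '' (New u (n + 1) \
        {i | i ∈ New u (n + 1) ∧ (fac u i (n + 1)).reverse = fac u i (n + 1)})) := by
      rw [Set.disjoint_left]
      rintro a ha ⟨b, _, hb⟩
      simp only [Set.mem_singleton_iff] at ha
      omega
    rw [h0, Set.ncard_union_eq hdis (Set.finite_singleton _)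
      ((hfin.subset Set.sdiff_subset).image _), Set.ncard_singleton,
      Set.ncard_image_of_injective _ Nat.succ_injective, Set.ncard_sdiff hsub (hfin.subset hsub),
      e3]
  have h2 : Px u (n + 1) ≤ (New u (n + 1)).ncard := by
    rw [← e3]
    exact Set.ncard_le_ncard hsub hfin
  unfold T
  omega

end Pool.Agent.R124.PalT
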