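import Mathlib

/-!
# Semi-transitive orientations give word-representants

If the edges of a finite graph are oriented along a height function so that every vertex lying on a
directed path between the ends of an edge is adjacent to both ends, then the graph is
word-representable (Halldórsson, Kitaev and Pyatkin).
-/

set_option autoImplicit false
set_option linter.unusedSectionVars false

namespace Pool.Agent.R124.SemiTransitive

variable {V : Type} [DecidableEq V]

/-- `w|_{a,b}`: delete all letters other than `a` and `b`. -/
def restrictTo (a b : V) (w : List V) : List V := w.filter fun z => z = a ∨ z = b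

/-- The letters `a` and `b` alternate in `w`: after deleting all other letters, no two consecutive
letters are equal. -/
def Alternate (w : List V) (a b : V) : Prop := (restrictTo a b w).IsChain (· ≠ ·)

/-- The word `w` represents the graph `G`: every vertex occurs in `w` and two distinct vertices
alternate in `w` if and only if they are adjacent. -/
def Represents (w : List V) (G : SimpleGraph V) : Prop :=
  (∀ v, v ∈ w) ∧ ∀ a b, a ≠ b → (Alternate w a b ↔ G.Adj a b)

/-- `G` is word-representable. -/
def WordRepresentable (G : SimpleGraph V) : Prop := ∃ w : List V, Represents w G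

/-! ### The pattern -/

/-- The order in which the classes are written. -/
def pat : List ℕ := [0, 1, 2, 0, 5, 3, 1, 5, 4, 2, 3, 4]

/-- The pattern of a pair of letters in classes `p` and `q`. -/
def pairPat (p q : ℕ) : List Bool :=
  pat.flatMap fun k => (if p = k then [false] else []) ++ (if q = k then [true] else [])

variable (L : List V) (c : V → V → ℕ)

/-- The word attached to the vertex `v`. -/
def wd (v : V) : List V := pat.flatMap fun k => L.filter fun u => c v u = k

theorem restrict_wd (v x y : V) (hxy : restrictTo x y L = [x, y]) :
    restrictTo x y (wd L c v) = (pairPat (c v x) (c v y)).map fun b => if b then y else x := by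
  unfold wd pairPat restrictTo
  rw [List.filter_flatMap, List.map_flatMap]
  congr 1
  funext k
  rw [List.filter_filter]
  have h2 : (L.filter fun z => decide (z = x ∨ z = y) && decide (c v z = k)) =
      (L.filter fun z => decide (z = x ∨ z = y)).filter fun z => decide (c v z = k) := by
    rw [List.filter_filter]
    congr 1
    funext z
    exact Bool.and_comm _ _
  rw [h2]
  unfold restrictTo at hxy
  rw [hxy]
  by_cases h1 : c v x = k <;> by_cases h2 : c v y = k <;> simp [h1, h2]

theorem restrict_comm (x y : V) (w : List V) : restrictTo x y w = restrictTo y x w := by
  unfold restrictTo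
  congr 1
  funext z
  simp only [decide_eq_decide]
  exact or_comm

theorem alternate_comm (x y : V) (w : List V) : Alternate w x y ↔ Alternate w y x := by
  unfold Alternate
  rw [restrict_comm]

/-- Words all of whose blocks restrict to `xyxy` alternate. -/
theorem chain_flatMap (x y : V) (hxy : x ≠ y) (f : V → List V) :
    ∀ l : List V, (∀ v ∈ l, restrictTo x y (f v) = [x, y, x, y]) →
      (restrictTo x y (l.flatMap f)).IsChain (· ≠ ·) := by
  intro l
  have key : ∀ l : List V, (∀ v ∈ l, restrictTo x y (f v) = [x, y, x, y]) →
      (restrictTo x y (l.flatMap f)).IsChain (· ≠ ·) ∧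
        ∀ z ∈ (restrictTo x y (l.flatMap f)).head?, z = x := by
    intro l
    induction l with
    | nil => intro _; simp [restrictTo]
    | cons v l ih =>
      intro h
      have h1 := h v (by simp)
      obtain ⟨h2, h3⟩ := ih fun u hu => h u (by simp [hu])
      have e : restrictTo x y ((v :: l).flatMap f) =
          [x, y, x, y] ++ restrictTo x y (l.flatMap f) := by
        rw [List.flatMap_cons]
        unfold restrictTo at h1 ⊢
        rw [List.filter_append, h1]
      rw [e]
      constructor
      · rw [List.isChain_append]
        refine ⟨?_, h2, ?_⟩
        · simp [hxy, hxy.symm]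
        · intro a ha b hb
          simp only [List.getLast?_cons_cons, List.getLast?_singleton, Option.mem_def,
            Option.some.injEq] at ha
          rw [h3 b hb, ← ha]
          exact hxy.symm
      · intro z hz
        simp at hz
        exact hz.symm
  exact fun h => (key l h).1

theorem not_chain_flatMap (x y : V) (f : V → List V) (l : List V) (v : V) (hv : v ∈ l)
    (h : ¬ (restrictTo x y (f v)).IsChain (· ≠ ·)) :
    ¬ (restrictTo x y (l.flatMap f)).IsChain (· ≠ ·) := by
  intro hc
  apply h
  obtain ⟨s, t, rfl⟩ := List.append_of_mem hv
  rw [List.flatMap_append, List.flatMap_cons] at hc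
  unfold restrictTo at hc ⊢
  rw [List.filter_append, List.filter_append] at hc
  exact hc.right_of_append.left_of_append

/-- The pairs of classes whose pattern alternates. -/
def good : List (ℕ × ℕ) :=
  [(0,0),(0,1),(0,2),(1,1),(1,2),(1,3),(1,5),(2,2),(2,3),(2,4),(3,3),(3,4),(4,4),(5,3)]

theorem good_pat : ∀ pq ∈ good, pairPat pq.1 pq.2 = [false, true, false, true] := by
  decide

open Relation

/-- Semi-transitive orientations give word-representants. -/
theorem wordRepresentable_of_height [Fintype V] (G : SimpleGraph V) (h : V → ℕ)
    (hne : ∀ a b, G.Adj a b → h a ≠ h b)
    (hst : ∀ a m b, TransGen (fun x y => G.Adj x y ∧ h x < h y) a m →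
      TransGen (fun x y => G.Adj x y ∧ h x < h y) m b → G.Adj a b → G.Adj a m ∧ G.Adj m b) :
    WordRepresentable G := by
  classical
  set R : V → V → Prop := fun x y => G.Adj x y ∧ h x < h y with hR
  have hlt : ∀ a b, TransGen R a b → h a < h b := by
    intro a b hab
    induction hab with
    | single h1 => exact h1.2
    | tail _ h1 ih => exact lt_trans ih h1.2
  -- the list of vertices sorted by height
  set L : List V := (Finset.univ : Finset V).toList.mergeSort (fun a b => decide (h a ≤ h b)) with hL
  have hLs : L.Pairwise (fun a b => h a ≤ h b) := by
    have := List.pairwise_mergeSort (le := fun a b : V => decide (h a ≤ h b))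
      (by intro a b c h1 h2; simp only [decide_eq_true_eq] at h1 h2 ⊢; exact le_trans h1 h2)
      (by intro a b; simp only [Bool.or_eq_true, decide_eq_true_eq]; exact le_total _ _)
      (Finset.univ : Finset V).toList
    refine this.imp ?_
    intro a b hab
    simpa using hab
  have hLp : L.Perm (Finset.univ : Finset V).toList := List.mergeSort_perm _ _
  have hLn : L.Nodup := hLp.nodup_iff.mpr (Finset.nodup_toList _)
  have hLm : ∀ v, v ∈ L := fun v => hLp.mem_iff.mpr (by simp)
  have hLxy : ∀ x y, h x < h y → restrictTo x y L = [x, y] := by
    intro x y hxy
    have hne' : x ≠ y := by rintro rfl; exact lt_irrefl _ hxy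
    have hp : (restrictTo x y L).Perm [x, y] := by
      have hnd : (restrictTo x y L).Nodup := hLn.filter _
      rw [List.perm_ext_iff_of_nodup hnd (by simp [hne'])]
      intro a
      simp [restrictTo, hLm]
    have hs : (restrictTo x y L).Pairwise (fun a b => h a ≤ h b) := hLs.filter _
    rcases List.perm_pair.mp hp with e | e
    · exact e
    · rw [e] at hs
      simp at hs
      omega
  -- the classes
  let c : V → V → ℕ := fun v u => if u = v then 5 else if R v u then 3 else if R u v then 1
    else if TransGen R u v then 0 else if TransGen R v u then 4 else 2
  have hasymm : ∀ a b, TransGen R a b → ¬ TransGen R b a := by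
    intro a b h1 h2
    exact lt_asymm (hlt _ _ h1) (hlt _ _ h2)
  have hgood : ∀ v x y, R x y → (c v x, c v y) ∈ good := by
    intro v x y hxy
    have hadj := hxy.1
    have t1 : TransGen R x y := TransGen.single hxy
    have hxyne : x ≠ y := G.ne_of_adj hadj
    by_cases hxv : x = v
    · subst hxv
      have : y ≠ x := hxyne.symm
      simp [c, this, hxy, good]
    by_cases hyv : y = v
    · subst hyv
      have h1 : ¬ R y x := fun h' => hasymm _ _ t1 (TransGen.single h')
      simp [c, hxyne, h1, hxy, good]
    -- general facts
    have hs1 : TransGen R x v → TransGen R v y → G.Adj x v ∧ G.Adj v y := fun h1 h2 =>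
      hst x v y h1 h2 hadj
    have radj : ∀ a b, G.Adj a b → TransGen R a b → R a b := fun a b h1 h2 => ⟨h1, hlt _ _ h2⟩
    -- class of x
    have cx : c v x = if R v x then 3 else if R x v then 1
      else if TransGen R x v then 0 else if TransGen R v x then 4 else 2 := by simp [c, hxv]
    have cy : c v y = if R v y then 3 else if R y v then 1
      else if TransGen R y v then 0 else if TransGen R v y then 4 else 2 := by simp [c, hyv]
    rw [cx, cy]
    by_cases a1 : R v x
    · -- x ∈ O, so y is a descendant
      have b1 : TransGen R v y := TransGen.head a1 t1
      have b2 : ¬ TransGen R y v := hasymm _ _ b1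
      have b3 : ¬ R y v := fun h' => b2 (TransGen.single h')
      simp only [a1, b1, b2, b3, if_true, if_false]
      split_ifs <;> simp [good]
    by_cases a2 : R x v
    · -- x ∈ I
      simp only [a1, a2, if_true, if_false]
      by_cases b1 : R v y
      · simp [b1, good]
      by_cases b2 : R y v
      · simp [b1, b2, good]
      by_cases b3 : TransGen R y v
      · -- x → y ⇝ v with x → v
        exfalso
        exact b2 (radj _ _ (hst x y v t1 b3 a2.1).2 b3)
      by_cases b4 : TransGen R v y
      · exfalso
        exact b1 (radj _ _ (hs1 (TransGen.single a2) b4).2 b4)
      simp [b1, b2, b3, b4, good]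
    by_cases a3 : TransGen R x v
    · -- x ∈ A
      simp only [a1, a2, a3, if_true, if_false]
      by_cases b1 : R v y
      · exfalso
        exact a2 (radj _ _ (hs1 a3 (TransGen.single b1)).1 a3)
      by_cases b2 : R y v
      · simp [b1, b2, good]
      by_cases b3 : TransGen R y v
      · simp [b1, b2, b3, good]
      by_cases b4 : TransGen R v y
      · exfalso
        exact a2 (radj _ _ (hs1 a3 b4).1 a3)
      simp [b1, b2, b3, b4, good]
    by_cases a4 : TransGen R v x
    · -- x ∈ B
      have c1 : TransGen R v y := a4.trans t1
      have c2 : ¬ TransGen R y v := hasymm _ _ c1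
      have c3 : ¬ R y v := fun h' => c2 (TransGen.single h')
      have c4 : ¬ R v y := by
        intro b1
        exact a1 (radj _ _ (hst v x y a4 t1 b1.1).1 a4)
      simp [a1, a2, a3, a4, c1, c2, c3, c4, good]
    -- x ∈ T
    have c2 : ¬ TransGen R y v := fun h' => a3 (t1.trans h')
    have c3 : ¬ R y v := fun h' => c2 (TransGen.single h')
    simp only [a1, a2, a3, a4, c2, c3, if_false]
    split_ifs <;> simp [good]
  refine ⟨L.flatMap (wd L c), ?_, ?_⟩
  · intro v
    rw [List.mem_flatMap]
    refine ⟨v, hLm v, ?_⟩
    unfold wd
    rw [List.mem_flatMap]
    refine ⟨5, by simp [pat], ?_⟩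
    simp [hLm v, c]
  · -- it suffices to treat the two orientations separately
    have pos : ∀ x y, R x y → Alternate (L.flatMap (wd L c)) x y := by
      intro x y hxy
      apply chain_flatMap x y (G.ne_of_adj hxy.1)
      intro v _
      rw [restrict_wd L c v x y (hLxy x y hxy.2), good_pat _ (hgood v x y hxy)]
      rfl
    intro a b hab
    constructor
    · intro halt
      by_contra hnadj
      -- use the word of `a`
      revert halt
      have hnR : ¬ R a b := fun h' => hnadj h'.1
      have hnR' : ¬ R b a := fun h' => hnadj h'.1.symm
      apply not_chain_flatMap a b (wd L c) L a (hLm a)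
      have ca : c a a = 5 := by simp [c]
      have cb : c a b = 0 ∨ c a b = 4 ∨ c a b = 2 := by
        simp only [c, hab.symm, hnR, hnR', if_false]
        split_ifs <;> simp
      -- the restriction of the word of `a`
      have rs : ∀ k : ℕ, restrictTo a b (L.filter fun u => c a u = k) =
          if k = 5 then [a] else if k = c a b then [b] else [] := by
        intro k
        have hnd : (restrictTo a b (L.filter fun u => c a u = k)).Nodup :=
          (hLn.filter _).filter _
        have hm : ∀ z, z ∈ restrictTo a b (L.filter fun u => c a u = k) ↔
            (c a z = k ∧ (z = a ∨ z = b)) := by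
          intro z; simp [restrictTo, hLm, and_comm]
        by_cases k5 : k = 5
        · rw [if_pos k5]
          have : (restrictTo a b (L.filter fun u => c a u = k)).Perm [a] := by
            rw [List.perm_ext_iff_of_nodup hnd (by simp)]
            intro z
            rw [hm]
            constructor
            · rintro ⟨h1, rfl | rfl⟩
              · simp
              · exfalso; omega
            · intro hz
              simp at hz
              subst hz
              exact ⟨by omega, Or.inl rfl⟩
          exact List.perm_singleton.mp this
        · rw [if_neg k5]
          by_cases kb : k = c a b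
          · rw [if_pos kb]
            have : (restrictTo a b (L.filter fun u => c a u = k)).Perm [b] := by
              rw [List.perm_ext_iff_of_nodup hnd (by simp)]
              intro z
              rw [hm]
              constructor
              · rintro ⟨h1, rfl | rfl⟩
                · exfalso; omega
                · simp
              · intro hz
                simp at hz
                subst hz
                exact ⟨kb.symm, Or.inr rfl⟩
            exact List.perm_singleton.mp this
          · rw [if_neg kb]
            rw [List.eq_nil_iff_forall_not_mem]
            intro z hz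
            rw [hm] at hz
            rcases hz with ⟨h1, rfl | rfl⟩
            · omega
            · omega
      have rw1 : restrictTo a b (wd L c a) =
          pat.flatMap fun k => if k = 5 then [a] else if k = c a b then [b] else [] := by
        unfold wd
        rw [restrictTo, List.filter_flatMap]
        congr 1
        funext k
        exact rs k
      rw [rw1]
      rcases cb with e | e | e <;> rw [e] <;> simp [pat]
    · intro hadj
      rcases lt_or_gt_of_ne (hne a b hadj) with h1 | h1
      · exact pos a b ⟨hadj, h1⟩
      · exact (alternate_comm a b _).mpr (pos b a ⟨hadj.symm, h1⟩)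

end Pool.Agent.R124.SemiTransitive
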